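import Pool.Agent.Lib.MP_778b46_nt.Th.Energy
import Pool.Agent.Lib.MP_778b46_nt.GX.DefsMA

/-! The interface of the circle method, with an exceptional set of large energy. -/

set_option autoImplicit false

namespace Pool.Agent.Lib.MP_778b46_nt.Th

open Finset GX

/-- `GX.MA` with `Good` in place of the bound for the number of elements. -/
def MAG (ϑ : ℝ) : Prop :=
  ∃ K : ℝ, 0 < K ∧ ∀ d1 : ℝ, 0 < d1 → d1 ≤ 1 / 40 → ∀ ε : ℝ, 0 < ε →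
    ∃ η c C X0 : ℝ, 0 < η ∧ η ≤ ε ∧ η / K ≤ c ∧ 1 ≤ C ∧ ∀ X : ℝ, X0 ≤ X → ∃ E : Finset ℕ,
      Good E (X ^ (1 - ϑ + ε)) (X ^ ε) ∧
      ∀ (ι : Type) [Fintype ι] (χ : ι → DC (⌊X ^ ϑ⌋₊).factorial) (ρ : ι → ℂ),
        Full (fun ξ z => cd ξ ≤ X ^ ϑ ∧ 1 - d1 ≤ z.re ∧ |z.im| ≤ X ^ η) χ ρ →
        ∀ m : ℕ, Even m → X ≤ m → (m : ℝ) ≤ 5 / 4 * X → m ∉ E → ¬ Gb m →
          1 ≤ ∑ i, ∑ j, wt C m (χ i) (χ j) (ρ i) (ρ j) *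
                ((X / 4) ^ ((ρ i).re - 1) * (X / 4) ^ ((ρ j).re - 1)) +
              ∑ i, wt0 C (χ i) (ρ i) * (X / 4) ^ ((ρ i).re - 1) +
              2 * X ^ (-c) * (1 + ∑ i, (X / 4) ^ ((ρ i).re - 1)) ^ 2

end Pool.Agent.Lib.MP_778b46_nt.Th
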