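import Pool.Agent.Lib.MP_778b46_nt.Th.Hua

/-! Hua's lemma for subsets of an interval, in the form of a restriction estimate. -/

set_option autoImplicit false

noncomputable section

namespace Pool.Agent.Lib.MP_778b46_nt.Th

open Finset Polynomial VA

theorem jensen_w {ι : Type} (I : Finset ι) (u x : ι → ℝ) (hI : I.Nonempty) (hu : ∀ a, 0 < u a)
    (hx : ∀ a, 0 ≤ x a) {B : ℝ} (hB : ∑ a ∈ I, u a ≤ B) (n : ℕ) :
    (∑ a ∈ I, x a) ^ (n + 1) ≤ B ^ n * ∑ a ∈ I, x a ^ (n + 1) / u a ^ n := by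
  set U := ∑ a ∈ I, u a with hU
  have U0 : 0 < U := sum_pos (fun a _ => hu a) hI
  have h := Real.pow_arith_mean_le_arith_mean_pow I (fun a => u a / U) (fun a => x a / u a)
    (fun a _ => (div_pos (hu a) U0).le) (by rw [← sum_div, div_self U0.ne'])
    (fun a _ => div_nonneg (hx a) (hu a).le) (n + 1)
  have e1 : ∑ a ∈ I, u a / U * (x a / u a) = (∑ a ∈ I, x a) / U := by
    rw [sum_div]
    refine sum_congr rfl fun a _ => ?_
    have := (hu a).ne'
    field_simp
  have e2 : ∑ a ∈ I, u a / U * (x a / u a) ^ (n + 1) = (∑ a ∈ I, x a ^ (n + 1) / u a ^ n) / U := by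
    rw [sum_div]
    refine sum_congr rfl fun a _ => ?_
    have := (hu a).ne'
    rw [div_pow]
    field_simp
    ring
  have s0 : 0 ≤ ∑ a ∈ I, x a ^ (n + 1) / u a ^ n :=
    sum_nonneg fun a _ => div_nonneg (pow_nonneg (hx a) _) (pow_pos (hu a) _).le
  rw [e1, e2, div_pow, div_le_iff₀ (pow_pos U0 _)] at h
  refine h.trans (le_trans (le_of_eq ?_) (mul_le_mul_of_nonneg_right
    (pow_le_pow_left₀ U0.le hB n) s0))
  field_simp
  ring

theorem SS_nonneg {N : ℕ} {T : Finset ℤ → ℤ[X] → ℝ} (hT : ∀ V G, 0 ≤ T V G) (j : ℕ) :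
    ∀ V G, 0 ≤ SS N T j V G := by
  induction j with
  | zero => exact hT
  | succ j ih => exact fun V G => sum_nonneg fun a _ => ih _ _

theorem SS_sum {ι : Type} (N : ℕ) (S : Finset ι) (s : ι → ℤ) (j : ℕ) : ∀ V G,
    SS N (fun V G => ∑ y ∈ S, ((SS N (cnt (s y)) 1 V G : ℕ) : ℝ)) j V G =
      ∑ y ∈ S, ((SS N (cnt (s y)) (j + 1) V G : ℕ) : ℝ) := by
  induction j with
  | zero => exact fun V G => rfl
  | succ j ih =>
    intro V G
    rw [SS, sum_congr rfl fun a _ => ih _ _, sum_comm]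
    refine sum_congr rfl fun y _ => ?_
    rw [← Nat.cast_sum]
    rfl

theorem ff_le (t : ℝ) (V : Finset ℤ) (G : ℤ[X]) : ‖ff t V G‖ ≤ V.card := by
  refine (norm_sum_le _ _).trans (le_of_eq ?_)
  simp only [norm_ee, sum_const, nsmul_eq_mul, mul_one]

/-- Weyl differencing with weights, against a nonnegative function. -/
theorem wh (j : ℕ) : ∃ p q : ℕ, p + 1 = 2 ^ j ∧ q + j + 2 = 2 ^ (j + 1) ∧ ∃ c : ℝ, 1 ≤ c ∧
    ∀ (N k : ℕ) (Ψ : ℝ → ℝ) (E : ℝ) (T : Finset ℤ → ℤ[X] → ℝ), 1 ≤ N → Continuous Ψ →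
      (∀ t, 0 ≤ Ψ t) → ∫ t in (0 : ℝ)..1, Ψ t ≤ E → (∀ V G, 0 ≤ T V G) →
      (∀ (V : Finset ℤ) (G : ℤ[X]), V ⊆ Icc 1 (N : ℤ) → 1 ≤ G.natDegree → G.natDegree ≤ k →
        ∫ t in (0 : ℝ)..1, ‖ff t V G‖ ^ 2 * Ψ t ≤ k * V.card * E + T V G) →
      ∀ (V : Finset ℤ) (G : ℤ[X]), V ⊆ Icc 1 (N : ℤ) → j + 1 ≤ G.natDegree → G.natDegree ≤ k →
        ∫ t in (0 : ℝ)..1, ‖ff t V G‖ ^ 2 ^ (j + 1) * Ψ t ≤
          c * (k * (N : ℝ) ^ p * (V.card : ℝ) ^ 2 ^ j * E + (N : ℝ) ^ q * SS N T j V G) := by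
  induction j with
  | zero =>
    refine ⟨0, 0, rfl, rfl, 1, le_rfl, fun N k Ψ E T _ _ _ _ _ hb V G hV h1 h2 => ?_⟩
    simpa [SS] using hb V G hV h1 h2
  | succ j ih =>
    obtain ⟨p, q, hp, hq, c, hc, ih⟩ := ih
    have hn : 2 ^ (j + 1) = 2 * p + 1 + 1 := by rw [pow_succ]; omega
    refine ⟨2 * p + 1, q + (2 * p + 1), hn.symm, by rw [pow_succ]; omega,
      4 ^ (2 * p + 1) * (5 * c), one_le_mul_of_one_le_of_one_le (one_le_pow₀ (by norm_num))
        (by linarith), fun N k Ψ E T hN c1 p0 hE hT hb V G hV h1 h2 => ?_⟩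
    replace ih := ih N k Ψ E T hN c1 p0 hE hT hb
    have n1 : (1 : ℝ) ≤ N := by exact_mod_cast hN
    have k1 : (1 : ℝ) ≤ k := by exact_mod_cast (by omega : 1 ≤ k)
    have E0 : 0 ≤ E := (intervalIntegral.integral_nonneg zero_le_one fun t _ => p0 t).trans hE
    have S0 := SS_nonneg (N := N) hT
    have cf : ∀ (V : Finset ℤ) (G : ℤ[X]), Continuous fun t => ff t V G := SS_cont N 0
    rcases V.eq_empty_or_nonempty with rfl | hne
    · have := S0 (j + 1) ∅ G
      simp only [ff, sum_empty, norm_zero, zero_pow (pow_ne_zero _ two_ne_zero), zero_mul,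
        intervalIntegral.integral_zero]
      positivity
    set v : ℝ := (V.card : ℝ) with hv
    have v0 : 0 < v := Nat.cast_pos.2 (card_pos.2 hne)
    set w : ℤ → ℝ := fun a => ((V.filter fun x => x + a ∈ V).card : ℝ) with hw
    set u : ℤ → ℝ := fun a => w a * N / v ^ 2 + 1 with hu
    have w0 : ∀ a, 0 ≤ w a := fun a => Nat.cast_nonneg _
    have u1 : ∀ a, 1 ≤ u a := fun a => le_add_of_nonneg_left (by have := w0 a; positivity)
    have u0 : ∀ a, 0 < u a := fun a => one_pos.trans_le (u1 a)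
    have hL : ((Icc (-(N : ℤ)) N).card : ℝ) = 2 * N + 1 := by
      have : (N : ℤ) + 1 - -(N : ℤ) = ((2 * N + 1 : ℕ) : ℤ) := by push_cast; ring
      rw [Int.card_Icc, this, Int.toNat_natCast]
      push_cast
      rfl
    have hU : ∑ a ∈ Icc (-(N : ℤ)) N, u a ≤ 4 * N := by
      have a1 : ∑ a ∈ Icc (-(N : ℤ)) N, w a ≤ v ^ 2 := by
        have := shift_card hV 0
        simp only [zero_add, pow_one] at this
        simp only [hw, hv]
        exact_mod_cast this
      have a2 : (∑ a ∈ Icc (-(N : ℤ)) N, w a) * N / v ^ 2 ≤ N := by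
        rw [div_le_iff₀ (by positivity), mul_comm]
        gcongr
      simp only [hu]
      rw [sum_add_distrib, ← sum_div, ← sum_mul, sum_const, nsmul_eq_mul, hL]
      linarith
    have hwu : ∀ a, (N : ℝ) * w a ≤ v ^ 2 * u a ^ 2 := fun a => by
      have a1 : v ^ 2 * u a = w a * N + v ^ 2 := by
        simp only [hu]
        field_simp
      have a2 : u a ≤ u a ^ 2 := le_self_pow₀ (u1 a) two_ne_zero
      have a3 := mul_le_mul_of_nonneg_left a2 (sq_nonneg v)
      nlinarith [sq_nonneg v]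
    set x : ℤ → ℝ → ℝ := fun a t => ‖ff t (V.filter fun x => x + a ∈ V) (taylor a G - G)‖ with hx
    have b1 : ∀ t, ‖ff t V G‖ ^ 2 ^ (j + 1 + 1) * Ψ t ≤ (4 * N : ℝ) ^ (2 * p + 1) *
        ∑ a ∈ Icc (-(N : ℤ)) N, x a t ^ 2 ^ (j + 1) * Ψ t / u a ^ (2 * p + 1) := fun t => by
      have a1 : ‖ff t V G‖ ^ 2 ≤ ∑ a ∈ Icc (-(N : ℤ)) N, x a t := by
        have h := congrArg norm (ff_sq hV G t)
        rw [Complex.norm_real, Real.norm_of_nonneg (sq_nonneg _)] at h
        rw [h]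
        exact norm_sum_le _ _
      have a2 := (pow_le_pow_left₀ (sq_nonneg _) a1 (2 * p + 1 + 1)).trans
        (jensen_w _ u (fun a => x a t) ⟨0, by simp⟩ u0 (fun _ => norm_nonneg _) hU (2 * p + 1))
      rw [← hn, ← pow_mul, ← pow_succ'] at a2
      refine (mul_le_mul_of_nonneg_right a2 (p0 t)).trans (le_of_eq ?_)
      rw [mul_assoc, sum_mul]
      simp only [div_mul_eq_mul_div]
    have b2 : ∀ a ∈ Icc (-(N : ℤ)) N,
        (∫ t in (0 : ℝ)..1, x a t ^ 2 ^ (j + 1) * Ψ t) / u a ^ (2 * p + 1) ≤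
          (if a = 0 then v ^ 2 ^ (j + 1) * E else 0) + c * (k * (v ^ 2 ^ (j + 1) * E / N) * u a +
            (N : ℝ) ^ q * SS N T j (V.filter fun x => x + a ∈ V) (taylor a G - G)) := by
      intro a _
      have s1 := S0 j (V.filter fun x => x + a ∈ V) (taylor a G - G)
      have s2 := u0 a
      have s3 : 1 ≤ u a ^ (2 * p + 1) := one_le_pow₀ (u1 a)
      split_ifs with ha
      · refine le_add_of_le_of_nonneg ?_ (by positivity)
        refine (div_le_self (intervalIntegral.integral_nonneg zero_le_one fun t _ =>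
          mul_nonneg (pow_nonneg (norm_nonneg _) _) (p0 t)) s3).trans ?_
        refine le_trans ?_ (mul_le_mul_of_nonneg_left hE (by positivity))
        rw [← intervalIntegral.integral_const_mul]
        refine intervalIntegral.integral_mono_on zero_le_one
          (((cf _ _).norm.pow _).mul c1 |>.intervalIntegrable _ _)
          ((continuous_const.mul c1).intervalIntegrable _ _) fun t _ =>
            mul_le_mul_of_nonneg_right (pow_le_pow_left₀ (norm_nonneg _)
              ((ff_le _ _ _).trans (Nat.cast_le.2 (card_filter_le _ _))) _) (p0 t)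
      · rw [zero_add, div_le_iff₀ (by positivity)]
        refine (ih _ _ ((filter_subset _ _).trans hV) (deg_ge ha h1)
          ((deg_le a G).trans h2)).trans ?_
        have a1 : (N : ℝ) ^ p * w a ^ 2 ^ j ≤ v ^ 2 ^ (j + 1) / N * (u a * u a ^ (2 * p + 1)) := by
          have a2 := pow_le_pow_left₀ (mul_nonneg (by linarith) (w0 a)) (hwu a) (p + 1)
          rw [div_mul_eq_mul_div, le_div_iff₀ (by linarith), hn, ← hp]
          calc _ = (N * w a) ^ (p + 1) := by ring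
            _ ≤ _ := a2
            _ = _ := by ring
        have a3 := mul_le_mul_of_nonneg_left a1 (mul_nonneg (by linarith : (0 : ℝ) ≤ k) E0)
        have a4 := le_mul_of_one_le_right (mul_nonneg (by positivity : 0 ≤ (N : ℝ) ^ q) s1) s3
        rw [mul_assoc c]
        refine mul_le_mul_of_nonneg_left ?_ (by linarith)
        calc _ = k * E * ((N : ℝ) ^ p * w a ^ 2 ^ j) + (N : ℝ) ^ q *
              SS N T j (V.filter fun x => x + a ∈ V) (taylor a G - G) := by ring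
          _ ≤ _ := add_le_add a3 a4
          _ = _ := by ring
    have b3 := sum_le_sum b2
    rw [sum_add_distrib, sum_ite_eq', ← mul_sum, sum_add_distrib, ← mul_sum, ← mul_sum,
      if_pos (by simp)] at b3
    have b4 : ∫ t in (0 : ℝ)..1, ‖ff t V G‖ ^ 2 ^ (j + 1 + 1) * Ψ t ≤ (4 * N : ℝ) ^ (2 * p + 1) *
        ∑ a ∈ Icc (-(N : ℤ)) N,
          (∫ t in (0 : ℝ)..1, x a t ^ 2 ^ (j + 1) * Ψ t) / u a ^ (2 * p + 1) := by
      have cx : ∀ a, Continuous fun t => x a t ^ 2 ^ (j + 1) * Ψ t / u a ^ (2 * p + 1) :=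
        fun a => (((cf _ _).norm.pow _).mul c1).div_const _
      simp only [← intervalIntegral.integral_div]
      rw [← intervalIntegral.integral_finsetSum fun a _ => (cx a).intervalIntegrable _ _,
        ← intervalIntegral.integral_const_mul]
      exact intervalIntegral.integral_mono_on zero_le_one
        ((((cf _ _).norm.pow _).mul c1).intervalIntegrable _ _)
        ((continuous_const.mul (continuous_finsetSum _ fun a _ => cx a)).intervalIntegrable _ _)
        fun t _ => b1 t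
    have z0 : 0 ≤ v ^ 2 ^ (j + 1) * E := by positivity
    have z1 := S0 (j + 1) V G
    have b5 : k * (v ^ 2 ^ (j + 1) * E / N) * ∑ a ∈ Icc (-(N : ℤ)) N, u a ≤
        4 * (k * (v ^ 2 ^ (j + 1) * E)) := by
      refine (mul_le_mul_of_nonneg_left hU (by positivity)).trans (le_of_eq ?_)
      field_simp
    have b6 : v ^ 2 ^ (j + 1) * E ≤ c * (k * (v ^ 2 ^ (j + 1) * E)) :=
      (le_mul_of_one_le_left z0 k1).trans (le_mul_of_one_le_left (by positivity) hc)
    have b7 := mul_le_mul_of_nonneg_left b5 (by linarith : 0 ≤ c)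
    have b8 : 0 ≤ c * ((N : ℝ) ^ q * SS N T (j + 1) V G) := by positivity
    refine b4.trans ((mul_le_mul_of_nonneg_left (b3.trans (?_ : _ ≤
      5 * c * (k * (v ^ 2 ^ (j + 1) * E) + (N : ℝ) ^ q * SS N T (j + 1) V G)))
      (by positivity)).trans (le_of_eq (by ring)))
    change _ + c * (_ + (N : ℝ) ^ q * SS N T (j + 1) V G) ≤ _
    linarith

theorem base_int {N : ℕ} (W : Finset ℤ) (F : ℤ[X]) (m : ℕ) {V : Finset ℤ} (G : ℤ[X])
    (hV : V ⊆ Icc 1 (N : ℤ)) : ∫ t in (0 : ℝ)..1, ‖ff t V G‖ ^ 2 * ‖ff t W F‖ ^ (2 * m) =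
      ∑ y ∈ YY W m, ((SS N (cnt (cc F y)) 1 V G : ℕ) : ℝ) := by
  have hce := continuous_ee
  have hc := SS_cont N 1 V G
  apply Complex.ofReal_injective
  rw [← intervalIntegral.integral_ofReal]
  simp only [Complex.ofReal_mul, ff_pow, ff_sq hV, mul_sum]
  rw [intervalIntegral.integral_finsetSum fun m _ =>
    Continuous.intervalIntegrable (by fun_prop) _ _]
  simp only [SS_int, Complex.ofReal_sum, Complex.ofReal_natCast]

/-- Hua's lemma on a subset. -/
theorem hua_res (F : ℤ[X]) {ε : ℝ} (hε : 0 < ε) (j : ℕ) (hj : j + 1 ≤ F.natDegree) :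
    ∃ a : ℕ, a + j + 1 = 2 ^ j ∧ ∃ C : ℝ, 0 ≤ C ∧
      ∀ (N : ℕ) (W : Finset ℤ), 1 ≤ N → W ⊆ Icc 1 (N : ℤ) →
        (EN F W (2 ^ j) : ℝ) ≤ C * (N : ℝ) ^ ε * (N : ℝ) ^ a * (W.card : ℝ) ^ 2 ^ j := by
  induction j with
  | zero =>
    obtain ⟨a, b, hb, hab, h⟩ := hua_nat F hε 0 hj
    obtain rfl : b = 1 := by omega
    exact ⟨a, by omega, h⟩
  | succ j ih =>
    obtain ⟨a, ha, C, hC, h⟩ := ih (by omega)
    obtain ⟨D, hD, hd⟩ := div_le F (2 ^ j) j hε
    obtain ⟨p, q, hp, hq, c, hc, hw⟩ := wh j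
    obtain rfl : q = p + a := by
      rw [pow_succ] at hq
      omega
    refine ⟨p + a, hq, c * (F.natDegree * C + D), by positivity, fun N W hN hW => ?_⟩
    have cf : Continuous fun t => ff t W F := SS_cont N 0 W F
    set S := (YY W (2 ^ j)).filter fun y => ¬ cc F y = 0 with hS
    have h1 := hw N F.natDegree (fun t => ‖ff t W F‖ ^ (2 * 2 ^ j)) (EN F W (2 ^ j))
      (fun V G => ∑ y ∈ S, ((SS N (cnt (cc F y)) 1 V G : ℕ) : ℝ)) hN (cf.norm.pow _)
      (fun t => by positivity) (ff_int W F _).le (fun V G => by positivity)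
      (fun V G hV a1 a2 => by
        rw [base_int W F _ G hV, ← sum_filter_add_sum_filter_not _ fun y => cc F y = 0]
        refine add_le_add ((sum_le_card_nsmul _ _ (F.natDegree * V.card : ℝ) fun y hy => ?_).trans
          (le_of_eq ?_)) le_rfl
        · have := SS_zero (N := N) 0 V G hV a1 a2
          rw [(mem_filter.1 hy).2]
          exact_mod_cast (by simpa using this)
        · rw [nsmul_eq_mul, mul_comm, EN]) W F hW (by omega) le_rfl
    have h2 : ∑ y ∈ S, ((SS N (cnt (cc F y)) (j + 1) W F : ℕ) : ℝ) ≤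
        (W.card : ℝ) ^ 2 ^ (j + 1) * (D * (N : ℝ) ^ ε) := by
      refine (sum_le_card_nsmul _ _ (D * (N : ℝ) ^ ε) fun y hy => le_trans
        (Nat.cast_le.2 (SS_ne (mem_filter.1 hy).2 (j + 1) W F hj le_rfl))
        (hd N W hN hW y (mem_filter.1 hy).1)).trans ?_
      rw [nsmul_eq_mul]
      refine mul_le_mul_of_nonneg_right ?_ (by positivity)
      have := (card_filter_le (YY W (2 ^ j)) fun y => ¬ cc F y = 0).trans (card_YY W _).le
      rw [← pow_succ'] at this
      exact_mod_cast this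
    simp only [← pow_succ' 2 j, ← pow_add, ← two_mul] at h1
    rw [ff_int, SS_sum] at h1
    have h5 := h N W hN hW
    have e : (W.card : ℝ) ^ 2 ^ (j + 1) = (W.card : ℝ) ^ 2 ^ j * (W.card : ℝ) ^ 2 ^ j := by
      rw [← pow_add, ← two_mul, ← pow_succ']
    calc _ ≤ _ := h1
      _ ≤ c * (F.natDegree * (N : ℝ) ^ p * (W.card : ℝ) ^ 2 ^ j *
          (C * (N : ℝ) ^ ε * (N : ℝ) ^ a * (W.card : ℝ) ^ 2 ^ j) +
            (N : ℝ) ^ (p + a) * ((W.card : ℝ) ^ 2 ^ (j + 1) * (D * (N : ℝ) ^ ε))) := by gcongr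
      _ = _ := by rw [e]; ring

end Pool.Agent.Lib.MP_778b46_nt.Th
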