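import Pool.Agent.Lib.MP_778b46_nt.Th.Energy
import Pool.Agent.Lib.MP_778b46_nt.Th.Hub

/-! From the energy of the exceptional set to polynomial sequences. -/

set_option autoImplicit false

noncomputable section

namespace Pool.Agent.Lib.MP_778b46_nt.Th

open Finset Polynomial VA Filter

/-- One window. -/
theorem window (F : ℤ[X]) {θ ε : ℝ} (hθ : 0 ≤ θ) (hε : 0 < ε) (j : ℕ) (hj : j + 1 ≤ F.natDegree) :
    ∃ δ K : ℝ, 0 < δ ∧ 0 ≤ K ∧ ∀ (N : ℕ) (X : ℝ) (E : Finset ℕ) (W : Finset ℤ), 1 ≤ N → 1 ≤ X →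
      Good E (X ^ (θ + δ)) (X ^ δ) → W ⊆ Icc 1 (N : ℤ) →
      (∀ x ∈ W, X ≤ (F.eval x : ℤ) ∧ ∃ m ∈ E, F.eval x = (m : ℤ)) →
      (W.card : ℝ) ≤ K * (N : ℝ) ^ (1 - ((j + 1) - θ * F.natDegree) / 2 ^ j + ε) := by
  obtain ⟨M, hM, hF⟩ := eval_le F
  set k := F.natDegree with hk
  have hδ : 0 < ε / (k * (1 + 2 * 2 ^ j) + 1) := by positivity
  set δ := ε / (k * (1 + 2 * 2 ^ j) + 1) with hδ'
  obtain ⟨a, hab, C, hC, h⟩ := hua_res F hδ j hj
  set s : ℝ := θ + δ + δ * (2 * 2 ^ j : ℕ) with hs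
  have s0 : 0 ≤ s := by positivity
  refine ⟨δ, 1 + M ^ s * C, hδ, by positivity, fun N X E W hN hX hE hW hv => ?_⟩
  have n1 : (1 : ℝ) ≤ N := by exact_mod_cast hN
  have n0 : (0 : ℝ) < N := by linarith
  rcases W.eq_empty_or_nonempty with e | ⟨x, hx⟩
  · rw [e, card_empty, Nat.cast_zero]
    positivity
  have w0 : (0 : ℝ) < W.card := by exact_mod_cast card_pos.2 ⟨x, hx⟩
  have h1 : X ≤ M * (N : ℝ) ^ k := (hv x hx).1.trans ((le_abs_self _).trans (hF N x (hW hx)))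
  have h2 : X ^ (θ + δ) * (X ^ δ) ^ (2 * 2 ^ j) ≤ M ^ s * (N : ℝ) ^ (k * s) := by
    rw [← Real.rpow_mul_natCast (by linarith), ← Real.rpow_add (by linarith), ← hs,
      Real.rpow_natCast_mul n0.le, ← Real.mul_rpow (by linarith) (by positivity)]
    exact Real.rpow_le_rpow (by linarith) h1 s0
  have h3 := (hE F W j fun x hx => (hv x hx).2).trans
    (mul_le_mul h2 (h N W hN hW) (Nat.cast_nonneg _) (by positivity))
  have e1 : 2 * 2 ^ j = a + j + 1 + 2 ^ j := by omega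
  rw [e1, pow_add, ← mul_assoc] at h3
  have h4 := le_of_mul_le_mul_right h3 (pow_pos w0 _)
  have e2 : (2 : ℝ) ^ j = (a + j + 1 : ℕ) := by exact_mod_cast hab.symm
  rw [e2]
  have c0 : (0 : ℝ) < (a + j + 1 : ℕ) := by positivity
  refine le_of_pow_le_pow_left₀ (Nat.succ_ne_zero (a + j)) (by positivity) (h4.trans ?_)
  rw [mul_pow, ← Real.rpow_mul_natCast n0.le]
  have h5 : M ^ s * C ≤ (1 + M ^ s * C) ^ (a + j + 1) :=
    le_trans (by linarith) (le_self_pow₀ (le_add_of_nonneg_right (by positivity))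
      (Nat.succ_ne_zero _))
  have h6 : k * s + δ + a ≤
      (1 - ((j + 1) - θ * k) / (a + j + 1 : ℕ) + ε) * (a + j + 1 : ℕ) := by
    have a1 : δ * (k * (1 + 2 * 2 ^ j) + 1) = ε := div_mul_cancel₀ _ (by positivity)
    have a2 : ε ≤ ε * (a + j + 1 : ℕ) := le_mul_of_one_le_right hε.le (by
      exact_mod_cast Nat.succ_pos (a + j))
    rw [add_mul, sub_mul, div_mul_cancel₀ _ c0.ne', hs]
    push_cast at a2 ⊢
    linarith
  calc _ = M ^ s * C * (N : ℝ) ^ (k * s + δ + a) := by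
        rw [Real.rpow_add n0, Real.rpow_add n0, Real.rpow_natCast]
        ring
    _ ≤ _ := mul_le_mul h5 (Real.rpow_le_rpow_of_exponent_le n1 h6) (by positivity)
        (by positivity)

theorem large_val {F : ℤ[X]} (h : 0 < F.leadingCoeff) (hd : 1 ≤ F.natDegree) (Y : ℝ) :
    ∃ n0 : ℕ, ∀ n : ℕ, n0 < n → Y ≤ (F.eval (n : ℤ) : ℤ) := by
  have hi : Function.Injective (Int.castRingHom ℝ) := Int.cast_injective
  have h1 := tendsto_atTop_of_leadingCoeff_nonneg (F.map (Int.castRingHom ℝ))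
    (by rw [degree_map_eq_of_injective hi]; exact natDegree_pos_iff_degree_pos.1 hd)
    (by rw [leadingCoeff_map_of_injective hi]; simpa using h.le)
  obtain ⟨n0, h2⟩ := eventually_atTop.1
    ((h1.comp tendsto_natCast_atTop_atTop).eventually_ge_atTop Y)
  refine ⟨n0, fun n hn => (h2 n hn.le).trans (le_of_eq ?_)⟩
  simp

open Classical in
/-- The count for polynomial sequences. -/
theorem thin_end (G : ℕ → Prop) {θ : ℝ} (hθ : 0 ≤ θ)
    (h : ∀ δ : ℝ, 0 < δ → ∃ X0 : ℝ, ∀ X : ℝ, X0 ≤ X → ∃ E : Finset ℕ,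
      Good E (X ^ (θ + δ)) (X ^ δ) ∧
        ∀ m : ℕ, Even m → X ≤ m → (m : ℝ) ≤ 5 / 4 * X → m ∉ E → G m)
    (Φ : ℤ[X]) (hΦ : 0 < Φ.leadingCoeff) {J : ℕ} (hJ : 1 ≤ J) (hJk : J ≤ Φ.natDegree) {ε : ℝ}
    (hε : 0 < ε) : ∃ C : ℝ, ∀ N : ℕ, 1 ≤ N →
      (Set.ncard {n : ℕ | 1 ≤ n ∧ n ≤ N ∧ ¬ ∃ m : ℕ, G m ∧ (m : ℤ) = 2 * Φ.eval (n : ℤ)} : ℝ) ≤
        C * (N : ℝ) ^ (1 - (J - θ * Φ.natDegree) / 2 ^ (J - 1) + ε) := by
  obtain ⟨j, rfl⟩ : ∃ j, J = j + 1 := ⟨J - 1, by omega⟩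
  have hd : (C 2 * Φ).natDegree = Φ.natDegree := natDegree_C_mul two_ne_zero
  have hv : ∀ x, (C 2 * Φ).eval x = 2 * Φ.eval x := fun x => by rw [eval_mul, eval_C]
  have hl : 0 < (C 2 * Φ).leadingCoeff := by
    rw [leadingCoeff_mul, leadingCoeff_C]
    linarith
  have hε2 : 0 < ε / 2 := by linarith
  obtain ⟨δ, K, hδ, hK, hw⟩ := window (C 2 * Φ) hθ hε2 j (hd ▸ hJk)
  obtain ⟨X0, h⟩ := h δ hδ
  obtain ⟨M, hM, hF⟩ := eval_le (C 2 * Φ)
  obtain ⟨n0, hn0⟩ := large_val hl (by omega) (max X0 1)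
  rw [hd] at hw hF
  simp only [hv] at hw hF hn0
  set k := Φ.natDegree with hk
  set Y := max X0 1 with hY
  have y1 : 1 ≤ Y := le_max_right _ _
  set β : ℝ := 1 - ((j + 1) - θ * k) / 2 ^ j + ε / 2 with hβ
  have β0 : 0 ≤ β := by
    obtain ⟨a, hab, -⟩ := hua_res Φ hε j hJk
    have a3 : (2 : ℝ) ^ j = a + j + 1 := by exact_mod_cast hab.symm
    have a4 : ((j + 1) - θ * k) / (a + j + 1 : ℝ) ≤ 1 := by
      rw [div_le_one (by positivity)]
      have : 0 ≤ θ * k := by positivity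
      have : (0 : ℝ) ≤ a := Nat.cast_nonneg _
      linarith
    rw [hβ, a3]
    linarith
  have lM : 0 ≤ Real.log M := Real.log_nonneg hM
  refine ⟨n0 + (5 * Real.log M + 5 * k / (ε / 2) + 1) * K, fun N hN => ?_⟩
  have n1 : (1 : ℝ) ≤ N := by exact_mod_cast hN
  have np : (0 : ℝ) < N := by linarith
  set V : ℕ → Finset ℤ := fun l => (Icc 1 (N : ℤ)).filter fun x =>
    Y * (5 / 4) ^ l ≤ (2 * Φ.eval x : ℤ) ∧ ((2 * Φ.eval x : ℤ) : ℝ) ≤ 5 / 4 * (Y * (5 / 4) ^ l) ∧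
      ¬ ∃ m : ℕ, G m ∧ (m : ℤ) = 2 * Φ.eval x with hV
  have v1 : ∀ l, ((V l).card : ℝ) ≤ K * (N : ℝ) ^ β := fun l => by
    have p1 : (1 : ℝ) ≤ (5 / 4) ^ l := one_le_pow₀ (by norm_num)
    have p2 : Y ≤ Y * (5 / 4) ^ l := le_mul_of_one_le_right (by linarith) p1
    obtain ⟨E, e1, e2⟩ := h (Y * (5 / 4) ^ l) ((le_max_left _ _).trans p2)
    refine hw N _ E _ hN (y1.trans p2) e1 (filter_subset _ _) fun x hx => ?_
    obtain ⟨b1, b2, b3⟩ := (mem_filter.1 hx).2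
    refine ⟨b1, ?_⟩
    have b4 : 0 ≤ Φ.eval x := by
      have : (0 : ℝ) ≤ (2 * Φ.eval x : ℤ) := by linarith
      have : 0 ≤ 2 * Φ.eval x := by exact_mod_cast this
      omega
    obtain ⟨r, hr⟩ := Int.eq_ofNat_of_zero_le b4
    have b5 : 2 * Φ.eval x = (2 * r : ℕ) := by rw [hr]; push_cast; rfl
    refine ⟨2 * r, by_contra fun b6 => b3 ⟨2 * r, ?_, b5.symm⟩, b5⟩
    rw [b5, Int.cast_natCast] at b1 b2
    exact e2 _ (even_two_mul r) b1 b2 b6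
  set L := ⌊5 * Real.log (M * (N : ℝ) ^ k)⌋₊ with hL
  have v2 : Set.ncard {n : ℕ | 1 ≤ n ∧ n ≤ N ∧ ¬ ∃ m : ℕ, G m ∧ (m : ℤ) = 2 * Φ.eval (n : ℤ)} ≤
      (Icc 1 (n0 : ℤ) ∪ (range (L + 1)).biUnion V).card := by
    rw [← Set.ncard_coe_finset]
    refine Set.ncard_le_ncard_of_injOn (fun n : ℕ => (n : ℤ)) (fun n hn => ?_)
      Nat.cast_injective.injOn (finite_toSet _)
    obtain ⟨b1, b2, b3⟩ := hn
    have b4 : (n : ℤ) ∈ Icc 1 (N : ℤ) := mem_Icc.2 ⟨by exact_mod_cast b1, by exact_mod_cast b2⟩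
    rcases le_or_gt n n0 with c | c
    · exact mem_coe.2 (mem_union_left _ (mem_Icc.2 ⟨by exact_mod_cast b1, by exact_mod_cast c⟩))
    have y0 : 0 < Y := by linarith
    obtain ⟨l, c1, c2⟩ := exists_nat_pow_near ((one_le_div y0).2 (hn0 n c))
      (by norm_num : (1 : ℝ) < 5 / 4)
    rw [le_div_iff₀' y0] at c1
    rw [div_lt_iff₀' y0, pow_succ] at c2
    refine mem_coe.2 (mem_union_right _ (mem_biUnion.2 ⟨l, mem_range.2 (Nat.lt_succ_of_le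
      (Nat.le_floor ?_)), mem_filter.2 ⟨b4, c1, by linarith, b3⟩⟩))
    have c3 : (5 / 4 : ℝ) ^ l ≤ M * (N : ℝ) ^ k :=
      (le_mul_of_one_le_left (by positivity) y1).trans
        (c1.trans ((le_abs_self _).trans (hF N n b4)))
    have c4 := Real.log_le_log (by positivity) c3
    have c5 := Real.one_sub_inv_le_log_of_pos (by norm_num : (0 : ℝ) < 5 / 4)
    have c6 := mul_le_mul_of_nonneg_left c5 (Nat.cast_nonneg (α := ℝ) l)
    rw [Real.log_pow] at c4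
    norm_num at c6
    linarith
  have u1 : 1 ≤ (N : ℝ) ^ (ε / 2) := Real.one_le_rpow n1 hε2.le
  have u2 : 1 ≤ (N : ℝ) ^ β := Real.one_le_rpow n1 β0
  have v3 : ((L + 1 : ℕ) : ℝ) ≤ (5 * Real.log M + 5 * k / (ε / 2) + 1) * (N : ℝ) ^ (ε / 2) := by
    have a1 : (L : ℝ) ≤ 5 * Real.log (M * (N : ℝ) ^ k) := Nat.floor_le (mul_nonneg (by norm_num)
      (Real.log_nonneg (one_le_mul_of_one_le_of_one_le hM (one_le_pow₀ n1))))
    rw [Real.log_mul (by positivity) (by positivity), Real.log_pow] at a1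
    have a2 := mul_le_mul_of_nonneg_left (Real.log_le_rpow_div np.le hε2)
      (Nat.cast_nonneg (α := ℝ) k)
    have a3 := le_mul_of_one_le_right lM u1
    have a4 : 5 * k / (ε / 2) * (N : ℝ) ^ (ε / 2) = 5 * (k * ((N : ℝ) ^ (ε / 2) / (ε / 2))) := by
      ring
    push_cast
    rw [add_mul, add_mul, a4]
    linarith
  have v4 : (((range (L + 1)).biUnion V).card : ℝ) ≤ (L + 1 : ℕ) * (K * (N : ℝ) ^ β) := by
    refine (Nat.cast_le.2 card_biUnion_le).trans ?_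
    rw [Nat.cast_sum]
    exact (sum_le_card_nsmul _ _ _ fun l _ => v1 l).trans (le_of_eq (by simp))
  have v5 : ((Icc 1 (n0 : ℤ) ∪ (range (L + 1)).biUnion V).card : ℝ) ≤
      n0 + ((range (L + 1)).biUnion V).card := by
    have := card_union_le (Icc 1 (n0 : ℤ)) ((range (L + 1)).biUnion V)
    rw [Int.card_Icc, add_sub_cancel_right, Int.toNat_natCast] at this
    exact_mod_cast this
  have e : (N : ℝ) ^ (1 - ((j + 1 : ℕ) - θ * k) / 2 ^ (j + 1 - 1) + ε) =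
      (N : ℝ) ^ (ε / 2) * (N : ℝ) ^ β := by
    rw [← Real.rpow_add np, hβ, Nat.add_sub_cancel]
    congr 1
    push_cast
    ring
  rw [e]
  have v6 : (n0 : ℝ) ≤ n0 * ((N : ℝ) ^ (ε / 2) * (N : ℝ) ^ β) :=
    le_mul_of_one_le_right (Nat.cast_nonneg _) (one_le_mul_of_one_le_of_one_le u1 u2)
  have v7 := mul_le_mul_of_nonneg_right v3 (by positivity : 0 ≤ K * (N : ℝ) ^ β)
  have v8 := (Nat.cast_le (α := ℝ)).2 v2
  calc _ ≤ n0 * ((N : ℝ) ^ (ε / 2) * (N : ℝ) ^ β) + (5 * Real.log M + 5 * k / (ε / 2) + 1) *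
        (N : ℝ) ^ (ε / 2) * (K * (N : ℝ) ^ β) := by linarith
    _ = _ := by ring

end Pool.Agent.Lib.MP_778b46_nt.Th
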