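import Pool.Agent.Lib.MP_778b46_nt.Th.Hua

/-! Sets whose subfamilies have large additive energy. -/

set_option autoImplicit false

noncomputable section

namespace Pool.Agent.Lib.MP_778b46_nt.Th

open Finset Polynomial VA

/-- Every family of values in `E` has large energy. -/
def Good (E : Finset ℕ) (A B : ℝ) : Prop :=
  ∀ (F : ℤ[X]) (W : Finset ℤ) (i : ℕ), (∀ x ∈ W, ∃ m ∈ E, F.eval x = (m : ℤ)) →
    (W.card : ℝ) ^ (2 * 2 ^ i) ≤ A * B ^ (2 * 2 ^ i) * EN F W (2 ^ i)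

theorem Good.mono {E E' : Finset ℕ} {A B A' B' : ℝ} (h : Good E A B) (hE : E' ⊆ E) (hA0 : 0 ≤ A)
    (hB0 : 0 ≤ B) (hA : A ≤ A') (hB : B ≤ B') : Good E' A' B' := fun F W i hW => by
  refine (h F W i fun x hx => (hW x hx).imp fun m hm => ⟨hE hm.1, hm.2⟩).trans ?_
  have := hA0.trans hA
  gcongr

theorem EN_mono (F : ℤ[X]) {W W' : Finset ℤ} (h : W ⊆ W') (m : ℕ) : EN F W m ≤ EN F W' m :=
  card_le_card (filter_subset_filter _ (product_subset_product
    (Fintype.piFinset_subset _ _ fun _ => h) (Fintype.piFinset_subset _ _ fun _ => h)))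

theorem good_biUnion {ι : Type} (S : Finset ι) (E : ι → Finset ℕ) {A B R : ℝ} (hA : 0 ≤ A)
    (hB : 0 ≤ B) (hR : (S.card : ℝ) ≤ R) (h : ∀ j ∈ S, Good (E j) A B) :
    Good (S.biUnion E) A (R * B) := by
  classical
  intro F W i hW
  obtain ⟨n, hn⟩ : ∃ n, 2 * 2 ^ i = n + 1 := ⟨2 * 2 ^ i - 1, by
    have : 0 < 2 ^ i := by positivity
    omega⟩
  set V : ι → Finset ℤ := fun j => W.filter fun x => ∃ m ∈ E j, F.eval x = (m : ℤ) with hV
  have h1 : (W.card : ℝ) ≤ ∑ j ∈ S, ((V j).card : ℝ) := by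
    have : W ⊆ S.biUnion V := fun x hx => by
      obtain ⟨m, hm, e⟩ := hW x hx
      obtain ⟨j, hj, hm⟩ := mem_biUnion.1 hm
      exact mem_biUnion.2 ⟨j, hj, mem_filter.2 ⟨hx, m, hm, e⟩⟩
    exact_mod_cast (card_le_card this).trans card_biUnion_le
  have h2 : ∑ j ∈ S, ((V j).card : ℝ) ^ (n + 1) ≤ S.card • (A * B ^ (n + 1) * EN F W (2 ^ i)) :=
    sum_le_card_nsmul _ _ _ fun j hj => by
      have h3 := h j hj F (V j) i fun x hx => (mem_filter.1 hx).2
      have h4 : (EN F (V j) (2 ^ i) : ℝ) ≤ EN F W (2 ^ i) :=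
        Nat.cast_le.2 (EN_mono F (filter_subset _ _) _)
      rw [hn] at h3
      exact h3.trans (by gcongr)
  have h5 : (0 : ℝ) ≤ S.card := Nat.cast_nonneg _
  have h6 := h5.trans hR
  rw [nsmul_eq_mul] at h2
  rw [hn]
  calc _ ≤ (∑ j ∈ S, ((V j).card : ℝ)) ^ (n + 1) := by gcongr
    _ ≤ (S.card : ℝ) ^ n * ∑ j ∈ S, ((V j).card : ℝ) ^ (n + 1) :=
      pow_sum_le_card_mul_sum_pow (fun _ _ => Nat.cast_nonneg _) n
    _ ≤ R ^ n * (R * (A * B ^ (n + 1) * EN F W (2 ^ i))) := by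
      refine mul_le_mul (by gcongr) (h2.trans (by gcongr)) (by positivity) (by positivity)
    _ = _ := by ring

theorem Good.union {E E' : Finset ℕ} {A B : ℝ} (h : Good E A B) (h' : Good E' A B) (hA : 0 ≤ A)
    (hB : 0 ≤ B) : Good (E ∪ E') A (2 * B) := by
  have h1 := good_biUnion (univ : Finset Bool) (fun b => if b then E else E') hA hB (R := 2)
    (by simp) fun b _ => by cases b <;> simpa
  refine h1.mono (fun m hm => ?_) hA (by positivity) le_rfl le_rfl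
  rcases mem_union.1 hm with e | e
  · exact mem_biUnion.2 ⟨true, mem_univ _, by simpa⟩
  · exact mem_biUnion.2 ⟨false, mem_univ _, by simpa⟩

theorem sq_le_fib {ι : Type} (T : Finset ι) (g : ι → ℤ) (V : Finset ℤ) (h : ∀ y ∈ T, g y ∈ V) :
    T.card ^ 2 ≤ V.card * ((T ×ˢ T).filter fun y => g y.1 - g y.2 = 0).card := by
  rw [card_eq_sum_card_fiberwise (f := g) (t := V) h]
  refine sq_sum_le_card_mul_sum_sq.trans (Nat.mul_le_mul_left _ (le_of_eq ?_))
  rw [card_eq_sum_card_fiberwise (f := fun y : ι × ι => g y.1) (t := V)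
    fun y hy => h _ (mem_product.1 (mem_filter.1 hy).1).1]
  refine sum_congr rfl fun v _ => ?_
  rw [sq, ← card_product]
  congr 1
  ext y
  simp only [mem_filter, mem_product, sub_eq_zero]
  exact ⟨fun e => ⟨⟨⟨e.1.1, e.2.1⟩, e.1.2.trans e.2.2.symm⟩, e.1.2⟩,
    fun e => ⟨⟨e.1.1.1, e.2⟩, e.1.1.2, e.1.2.symm.trans e.2⟩⟩

/-- The multiples of `d` up to `M`. -/
theorem good_prog {E : Finset ℕ} {d : ℕ} {M Z : ℝ} (hZ : 0 < Z) (hd : Z ≤ d) (hM : 0 ≤ M)
    (hE : ∀ m ∈ E, d ∣ m ∧ (m : ℝ) ≤ M) : Good E (M / Z + 1) 2 := by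
  intro F W i hW
  have d0 : (0 : ℝ) < d := hZ.trans_le hd
  have h1 := sq_le_fib (Fintype.piFinset fun _ : Fin (2 ^ i) => W) (fun y => ∑ l, F.eval (y l))
    ((range (⌊2 ^ i * (M / Z)⌋₊ + 1)).image fun v : ℕ => ((d * v : ℕ) : ℤ)) fun y hy => by
      choose m hm e using fun l => hW _ (Fintype.mem_piFinset.1 hy l)
      obtain ⟨v, hv⟩ : d ∣ ∑ l, m l := dvd_sum fun l _ => (hE _ (hm l)).1
      refine mem_image.2 ⟨v, mem_range.2 (Nat.lt_succ_of_le (Nat.le_floor ?_)), ?_⟩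
      · have a1 : ((∑ l, m l : ℕ) : ℝ) ≤ 2 ^ i * M := by
          rw [Nat.cast_sum]
          exact (sum_le_card_nsmul _ _ M fun l _ => (hE _ (hm l)).2).trans (le_of_eq (by simp))
        rw [hv, Nat.cast_mul] at a1
        rw [← mul_div_assoc, le_div_iff₀ hZ, mul_comm]
        exact (mul_le_mul_of_nonneg_right hd (Nat.cast_nonneg _)).trans a1
      · rw [← hv, Nat.cast_sum]
        exact sum_congr rfl fun l _ => (e l).symm
  rw [Fintype.card_piFinset_const, ← pow_mul, mul_comm (2 ^ i)] at h1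
  have h2 := h1.trans (Nat.mul_le_mul_right _ (card_image_le.trans (card_range _).le))
  have h3 : ((⌊2 ^ i * (M / Z)⌋₊ + 1 : ℕ) : ℝ) ≤ (M / Z + 1) * 2 ^ (2 * 2 ^ i) := by
    have a1 : (⌊2 ^ i * (M / Z)⌋₊ : ℝ) ≤ 2 ^ i * (M / Z) := Nat.floor_le (by positivity)
    have a2 : (2 : ℝ) ^ i ≤ 2 ^ (2 * 2 ^ i) := pow_le_pow_right₀ one_le_two (by
      have : i < 2 ^ i := Nat.lt_two_pow_self
      omega)
    have a3 : (1 : ℝ) ≤ 2 ^ (2 * 2 ^ i) := one_le_pow₀ one_le_two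
    have a4 := mul_le_mul_of_nonneg_right a2 (div_nonneg hM hZ.le)
    push_cast
    linarith
  calc _ ≤ ((⌊2 ^ i * (M / Z)⌋₊ + 1 : ℕ) : ℝ) * EN F W (2 ^ i) := by exact_mod_cast h2
    _ ≤ _ := by gcongr

theorem int_cs {w a b : ℝ → ℝ} (hw : Continuous w) (ha : Continuous a) (hb : Continuous b)
    (h0 : ∀ x, 0 ≤ w x) : (∫ x in (0 : ℝ)..1, w x * (a x * b x)) ^ 2 ≤
      (∫ x in (0 : ℝ)..1, w x * a x ^ 2) * ∫ x in (0 : ℝ)..1, w x * b x ^ 2 := by
  have h := discrim_le_zero (a := ∫ x in (0 : ℝ)..1, w x * a x ^ 2)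
    (b := 2 * ∫ x in (0 : ℝ)..1, w x * (a x * b x)) (c := ∫ x in (0 : ℝ)..1, w x * b x ^ 2)
    fun l => by
      have e : ∀ x, w x * (a x * l + b x) ^ 2 =
          w x * a x ^ 2 * (l * l) + w x * (a x * b x) * (2 * l) + w x * b x ^ 2 := fun x => by ring
      have h1 : 0 ≤ ∫ x in (0 : ℝ)..1, w x * (a x * l + b x) ^ 2 :=
        intervalIntegral.integral_nonneg zero_le_one fun x _ => mul_nonneg (h0 x) (sq_nonneg _)
      simp only [e] at h1
      rw [intervalIntegral.integral_add (Continuous.intervalIntegrable (by fun_prop) _ _)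
        (Continuous.intervalIntegrable (by fun_prop) _ _),
        intervalIntegral.integral_add (Continuous.intervalIntegrable (by fun_prop) _ _)
        (Continuous.intervalIntegrable (by fun_prop) _ _), intervalIntegral.integral_mul_const,
        intervalIntegral.integral_mul_const] at h1
      linarith
  rw [discrim] at h
  linarith

theorem int_iter {w g : ℝ → ℝ} (hw : Continuous w) (hg : Continuous g) (h0 : ∀ x, 0 ≤ w x)
    (g0 : ∀ x, 0 ≤ g x) {P : ℝ} (hP : ∫ x in (0 : ℝ)..1, w x ≤ P) (i : ℕ) :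
    (∫ x in (0 : ℝ)..1, w x * g x) ^ 2 ^ i * P ≤
      P ^ 2 ^ i * ∫ x in (0 : ℝ)..1, w x * g x ^ 2 ^ i := by
  have n0 : ∀ n : ℕ, 0 ≤ ∫ x in (0 : ℝ)..1, w x * g x ^ n := fun n =>
    intervalIntegral.integral_nonneg zero_le_one fun x _ => mul_nonneg (h0 x) (pow_nonneg (g0 x) n)
  have n1 := n0 1
  have n2 := n0 0
  simp only [pow_one, pow_zero, mul_one] at n1 n2
  have P0 : 0 ≤ P := n2.trans hP
  induction i with
  | zero => simp [mul_comm]
  | succ i ih =>
    have h1 := int_cs (a := fun _ => 1) (b := fun x => g x ^ 2 ^ i) hw continuous_const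
      (by fun_prop) h0
    simp only [one_mul, one_pow, mul_one, ← pow_mul, ← pow_succ] at h1
    have h2 := h1.trans (mul_le_mul_of_nonneg_right hP (n0 _))
    rcases P0.eq_or_lt with e | e
    · rw [← e, mul_zero, zero_pow (by positivity), zero_mul]
    have h3 := pow_le_pow_left₀ (by positivity) ih 2
    rw [mul_pow, mul_pow, ← pow_mul, ← pow_mul, ← pow_succ] at h3
    have h4 := h3.trans (mul_le_mul_of_nonneg_left h2 (by positivity))
    refine le_of_mul_le_mul_right ?_ e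
    calc _ = (∫ x in (0 : ℝ)..1, w x * g x) ^ 2 ^ (i + 1) * P ^ 2 := by ring
      _ ≤ _ := h4
      _ = _ := by ring

theorem majorant (F : ℤ[X]) (W : Finset ℤ) (c : ℤ → ℂ) (hc : ∀ x, ‖c x‖ ≤ 1) (m : ℕ) :
    ∫ t in (0 : ℝ)..1, ‖∑ x ∈ W, c x * ee ((-F.eval x : ℤ) * t)‖ ^ (2 * m) ≤ EN F W m := by
  have hce := continuous_ee
  have e : ∀ t : ℝ, ((‖∑ x ∈ W, c x * ee ((-F.eval x : ℤ) * t)‖ ^ (2 * m) : ℝ) : ℂ) =
      ∑ y ∈ YY W m, (starRingEnd ℂ) (∏ i, c (y.1 i)) * (∏ i, c (y.2 i)) *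
        ee ((cc F y : ℤ) * t) := fun t => by
    have h : (∑ x ∈ W, c x * ee ((-F.eval x : ℤ) * t)) ^ m =
        ∑ y ∈ Fintype.piFinset fun _ : Fin m => W,
          (∏ i, c (y i)) * ee (-((∑ i, F.eval (y i) : ℤ) * t)) := by
      rw [sum_pow']
      refine sum_congr rfl fun y _ => ?_
      rw [prod_mul_distrib, ← ee_sum, Int.cast_sum, sum_mul, ← sum_neg_distrib]
      simp only [Int.cast_neg, neg_mul]
    rw [mul_comm, pow_mul, ← norm_pow, h, Complex.ofReal_pow, ← Complex.conj_mul', map_sum,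
      sum_mul_sum, YY, sum_product]
    refine sum_congr rfl fun y _ => sum_congr rfl fun y' _ => ?_
    rw [map_mul, conj_ee, neg_neg, cc, Int.cast_sub, sub_mul, sub_eq_add_neg, ee_add]
    ring
  refine (le_abs_self _).trans ?_
  rw [← Real.norm_eq_abs, ← Complex.norm_real, ← intervalIntegral.integral_ofReal]
  simp only [e]
  rw [intervalIntegral.integral_finsetSum fun m _ =>
    Continuous.intervalIntegrable (by fun_prop) _ _]
  simp only [intervalIntegral.integral_const_mul, ee_orth]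
  rw [EN, card_filter, Nat.cast_sum]
  refine (norm_sum_le _ _).trans (sum_le_sum fun y _ => ?_)
  have h1 : ∀ z : Fin m → ℤ, ‖∏ i, c (z i)‖ ≤ 1 := fun z => by
    rw [norm_prod]
    exact prod_le_one (fun _ _ => norm_nonneg _) fun _ _ => hc _
  split_ifs
  · rw [mul_one, norm_mul, RCLike.norm_conj, Nat.cast_one]
    exact mul_le_one₀ (h1 _) (norm_nonneg _) (h1 _)
  · simp

/-- The integers with a large contribution of the minor arcs. -/
theorem good_minor {E : Finset ℕ} {u : ℝ → ℝ} {S : ℝ → ℂ} (hu : Continuous u) (hS : Continuous S)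
    (h1 : ∀ x, |u x| ≤ 1) {P Q Y : ℝ} (hP0 : 0 < P) (hY : 0 < Y)
    (hP : ∫ x in (0 : ℝ)..1, ‖S x‖ ^ 2 ≤ P) (hQ : ∫ x in (0 : ℝ)..1, u x ^ 2 * ‖S x‖ ^ 4 ≤ Q)
    (hE : ∀ m ∈ E, Y ≤ ‖∫ x in (0 : ℝ)..1, (u x : ℂ) * (S x * S x) * ee (-(m * x))‖) :
    Good E (Q / P ^ 2) (P / Y) := by
  intro F W i hW
  have hce := continuous_ee
  set I : ℤ → ℂ := fun x =>
    ∫ t in (0 : ℝ)..1, (u t : ℂ) * (S t * S t) * ee ((-F.eval x : ℤ) * t) with hI
  set c : ℤ → ℂ := fun x => (starRingEnd ℂ) (I x) / (‖I x‖ : ℂ) with hc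
  have c1 : ∀ x, ‖c x‖ ≤ 1 := fun x => by
    rw [hc, norm_div, RCLike.norm_conj, Complex.norm_real, norm_norm]
    exact div_self_le_one _
  have c2 : ∀ x, c x * I x = (‖I x‖ : ℂ) := fun x => by
    rw [hc, div_mul_eq_mul_div, Complex.conj_mul', sq, mul_self_div_self]
  set K : ℝ → ℂ := fun t => ∑ x ∈ W, c x * ee ((-F.eval x : ℤ) * t) with hK
  have cK : Continuous K := by
    simp only [hK]
    fun_prop
  have a1 : W.card * Y ≤ ∑ x ∈ W, ‖I x‖ := by
    rw [← nsmul_eq_mul]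
    refine card_nsmul_le_sum _ _ _ fun x hx => ?_
    obtain ⟨m, hm, e⟩ := hW x hx
    simpa only [hI, e, Int.cast_neg, Int.cast_natCast, neg_mul] using hE m hm
  have a2 : ((∑ x ∈ W, ‖I x‖ : ℝ) : ℂ) = ∫ t in (0 : ℝ)..1, (u t : ℂ) * (S t * S t) * K t := by
    simp only [hK, mul_sum, mul_left_comm _ (c _)]
    rw [intervalIntegral.integral_finsetSum fun m _ =>
      Continuous.intervalIntegrable (by fun_prop) _ _, Complex.ofReal_sum]
    refine sum_congr rfl fun x _ => ?_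
    rw [intervalIntegral.integral_const_mul, c2]
  have a3 : W.card * Y ≤ ∫ t in (0 : ℝ)..1, |u t| * ‖S t‖ ^ 2 * ‖K t‖ := by
    refine a1.trans ((le_abs_self _).trans ?_)
    rw [← Real.norm_eq_abs, ← Complex.norm_real, a2]
    refine (intervalIntegral.norm_integral_le_integral_norm zero_le_one).trans (le_of_eq ?_)
    simp only [norm_mul, Complex.norm_real, Real.norm_eq_abs, sq]
  have w0 : ∀ t, 0 ≤ |u t| * ‖S t‖ ^ 2 := fun t => by positivity
  have a4 := int_iter (w := fun t => |u t| * ‖S t‖ ^ 2) (g := fun t => ‖K t‖) (by fun_prop)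
    (by fun_prop) w0 (fun _ => norm_nonneg _) (P := P) (le_trans
      (intervalIntegral.integral_mono_on zero_le_one
        (Continuous.intervalIntegrable (by fun_prop) _ _)
        (Continuous.intervalIntegrable (by fun_prop) _ _) fun t _ =>
          mul_le_of_le_one_left (sq_nonneg _) (h1 t)) hP) i
  have a5 := int_cs (w := fun _ => 1) (a := fun t => |u t| * ‖S t‖ ^ 2)
    (b := fun t => ‖K t‖ ^ 2 ^ i) continuous_const (by fun_prop) (by fun_prop) fun _ => zero_le_one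
  simp only [one_mul, mul_pow, sq_abs, ← pow_mul, mul_comm (2 ^ i) 2] at a5
  have q0 : 0 ≤ ∫ x in (0 : ℝ)..1, u x ^ 2 * ‖S x‖ ^ 4 :=
    intervalIntegral.integral_nonneg zero_le_one fun x _ => by positivity
  have a6 := a5.trans (mul_le_mul hQ (majorant F W c c1 (2 ^ i))
    (intervalIntegral.integral_nonneg zero_le_one fun x _ => by positivity) (q0.trans hQ))
  have a7 : (W.card * Y) ^ 2 ^ i * P ≤ _ := le_trans (by gcongr) a4
  have a8 := pow_le_pow_left₀ (by positivity) a7 2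
  rw [mul_pow, mul_pow (P ^ 2 ^ i), ← pow_mul, ← pow_mul, mul_comm (2 ^ i) 2, mul_pow] at a8
  have a9 := a8.trans (mul_le_mul_of_nonneg_left a6 (by positivity))
  rw [div_pow, div_mul_div_comm, div_mul_eq_mul_div, le_div_iff₀ (by positivity)]
  calc _ = (W.card : ℝ) ^ (2 * 2 ^ i) * Y ^ (2 * 2 ^ i) * P ^ 2 := by ring
    _ ≤ _ := a9
    _ = _ := by ring

end Pool.Agent.Lib.MP_778b46_nt.Th
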