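import Pool.Agent.Lib.MP_778b46_nt.VA.Pars
import Pool.Agent.Lib.MP_2a1a00_nt.Div

/-! Hua's lemma for a sum over an arbitrary subset of an interval. -/

set_option autoImplicit false

noncomputable section

namespace Pool.Agent.Lib.MP_778b46_nt.Th

open Finset Polynomial VA

/-- The sum of `T` over all `j`-fold differences. -/
def SS {M : Type} [AddCommMonoid M] (N : ℕ) (T : Finset ℤ → ℤ[X] → M) :
    ℕ → Finset ℤ → ℤ[X] → M
  | 0, W, F => T W F
  | j + 1, W, F => ∑ a ∈ Icc (-(N : ℤ)) N, SS N T j (W.filter fun x => x + a ∈ W) (taylor a F - F)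

/-- The exponential sum. -/
def ff (t : ℝ) (W : Finset ℤ) (F : ℤ[X]) : ℂ := ∑ x ∈ W, ee ((F.eval x : ℤ) * t)

/-- The number of solutions. -/
def cnt (s : ℤ) (W : Finset ℤ) (F : ℤ[X]) : ℕ := (W.filter fun x => F.eval x = s).card

theorem shift_sum {M : Type} [AddCommMonoid M] {N : ℕ} {W : Finset ℤ} (hW : W ⊆ Icc 1 (N : ℤ))
    (g : ℤ → ℤ → M) :
    ∑ a ∈ Icc (-(N : ℤ)) N, ∑ x ∈ W.filter (fun x => x + a ∈ W), g x (x + a) =
      ∑ x ∈ W, ∑ y ∈ W, g x y := by
  simp only [sum_filter]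
  rw [sum_comm]
  refine sum_congr rfl fun x hx => ?_
  rw [← sum_filter]
  refine sum_nbij' (fun a => x + a) (fun y => y - x) (fun a ha => (mem_filter.1 ha).2)
    (fun y hy => ?_) (fun a _ => by ring) (fun y _ => by ring) fun a _ => rfl
  have h1 := mem_Icc.1 (hW hx)
  have h2 := mem_Icc.1 (hW hy)
  refine mem_filter.2 ⟨mem_Icc.2 ⟨by omega, by omega⟩, ?_⟩
  rwa [add_sub_cancel]

theorem shift_card {N : ℕ} {W : Finset ℤ} (hW : W ⊆ Icc 1 (N : ℤ)) (j : ℕ) :
    ∑ a ∈ Icc (-(N : ℤ)) N, (W.filter fun x => x + a ∈ W).card ^ (j + 1) ≤ W.card ^ (j + 2) := by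
  have h := shift_sum hW fun _ _ => (1 : ℕ)
  simp only [sum_const, smul_eq_mul, mul_one] at h
  calc _ ≤ ∑ a ∈ Icc (-(N : ℤ)) N, W.card ^ j * (W.filter fun x => x + a ∈ W).card :=
        sum_le_sum fun a _ => by
          rw [pow_succ]
          exact Nat.mul_le_mul_right _ (Nat.pow_le_pow_left (card_filter_le _ _) _)
    _ = _ := by rw [← mul_sum, h]; ring

theorem norm_sq_sum {ι : Type} (T : Finset ι) (c : ι → ℤ) (t : ℝ) :
    ((‖∑ m ∈ T, ee (c m * t)‖ ^ 2 : ℝ) : ℂ) = ∑ m ∈ T, ∑ m' ∈ T, ee ((c m' - c m : ℤ) * t) := by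
  rw [Complex.ofReal_pow, ← Complex.conj_mul', map_sum, sum_mul_sum]
  refine sum_congr rfl fun m _ => sum_congr rfl fun m' _ => ?_
  have : ((c m' - c m : ℤ) : ℝ) * t = -(c m * t) + c m' * t := by
    push_cast
    ring
  rw [conj_ee, this, ee_add]

theorem ff_sq {N : ℕ} {W : Finset ℤ} (hW : W ⊆ Icc 1 (N : ℤ)) (F : ℤ[X]) (t : ℝ) :
    ((‖ff t W F‖ ^ 2 : ℝ) : ℂ) = SS N (ff t) 1 W F := by
  rw [ff, norm_sq_sum, ← shift_sum hW fun x y => ee ((F.eval y - F.eval x : ℤ) * t)]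
  simp only [SS, ff, eval_sub, taylor_eval]

/-- Weyl differencing. -/
theorem weyl {N : ℕ} (t : ℝ) (j : ℕ) : ∀ (W : Finset ℤ) (F : ℤ[X]), W ⊆ Icc 1 (N : ℤ) →
    ‖ff t W F‖ ^ 2 ^ (j + 1) * (2 * N + 1 : ℝ) ^ (j + 2) ≤
      (2 * N + 1 : ℝ) ^ 2 ^ (j + 1) * (SS N (ff t) (j + 1) W F).re := by
  induction j with
  | zero =>
    intro W F hW
    rw [← ff_sq hW, Complex.ofReal_re, mul_comm]
    norm_num
  | succ j ih =>
    intro W F hW
    have hL : ((Icc (-(N : ℤ)) N).card : ℝ) = 2 * N + 1 := by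
      have : (N : ℤ) + 1 - -(N : ℤ) = ((2 * N + 1 : ℕ) : ℤ) := by push_cast; ring
      rw [Int.card_Icc, this, Int.toNat_natCast]
      push_cast
      rfl
    obtain ⟨n, hn⟩ : ∃ n, 2 ^ (j + 1) = n + 1 := ⟨2 ^ (j + 1) - 1, by
      have : 0 < 2 ^ (j + 1) := by positivity
      omega⟩
    have h1 : ‖ff t W F‖ ^ 2 ≤ ∑ a ∈ Icc (-(N : ℤ)) N,
        ‖ff t (W.filter fun x => x + a ∈ W) (taylor a F - F)‖ := by
      have h := congrArg norm (ff_sq hW F t)
      rw [Complex.norm_real, Real.norm_of_nonneg (sq_nonneg _)] at h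
      rw [h]
      exact norm_sum_le _ _
    have h2 := (pow_le_pow_left₀ (sq_nonneg _) h1 (n + 1)).trans
      (pow_sum_le_card_mul_sum_pow (fun _ _ => norm_nonneg _) n)
    rw [hL, ← hn, ← pow_mul, ← pow_succ'] at h2
    have h3 : (∑ a ∈ Icc (-(N : ℤ)) N, ‖ff t (W.filter fun x => x + a ∈ W) (taylor a F - F)‖ ^
        2 ^ (j + 1)) * (2 * N + 1 : ℝ) ^ (j + 2) ≤
        (2 * N + 1 : ℝ) ^ 2 ^ (j + 1) * (SS N (ff t) (j + 1 + 1) W F).re := by
      rw [SS, Complex.re_sum, sum_mul, mul_sum]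
      exact sum_le_sum fun a _ => ih _ _ ((filter_subset _ _).trans hW)
    have e : (2 * N + 1 : ℝ) ^ 2 ^ (j + 1 + 1) =
        (2 * N + 1 : ℝ) ^ (n + 1) * (2 * N + 1 : ℝ) ^ 2 ^ (j + 1) := by
      rw [← hn, ← pow_add, ← two_mul, ← pow_succ']
    calc _ ≤ _ := mul_le_mul_of_nonneg_right h2 (by positivity)
      _ = (2 * N + 1 : ℝ) ^ (n + 1) * ((∑ a ∈ Icc (-(N : ℤ)) N,
          ‖ff t (W.filter fun x => x + a ∈ W) (taylor a F - F)‖ ^ 2 ^ (j + 1)) *
            (2 * N + 1 : ℝ) ^ (j + 2)) := by ring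
      _ ≤ _ := mul_le_mul_of_nonneg_left h3 (by positivity)
      _ = _ := by rw [e, mul_assoc]

theorem SS_cont (N j : ℕ) : ∀ (W : Finset ℤ) (F : ℤ[X]),
    Continuous fun t => SS N (ff t) j W F := by
  have hce := continuous_ee
  induction j with
  | zero =>
    intro W F
    simp only [SS, ff]
    fun_prop
  | succ j ih => exact fun W F => continuous_finsetSum _ fun a _ => ih _ _

theorem SS_int (N : ℕ) (s : ℤ) (j : ℕ) : ∀ (W : Finset ℤ) (F : ℤ[X]),
    ∫ t in (0 : ℝ)..1, SS N (ff t) j W F * ee ((-s : ℤ) * t) = (SS N (cnt s) j W F : ℕ) := by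
  have hce := continuous_ee
  induction j with
  | zero =>
    intro W F
    have e : ∀ t : ℝ, SS N (ff t) 0 W F * ee ((-s : ℤ) * t) =
        ∑ x ∈ W, ee ((F.eval x - s : ℤ) * t) := fun t => by
      rw [SS, ff, sum_mul]
      refine sum_congr rfl fun x _ => ?_
      rw [← ee_add]
      congr 1
      push_cast
      ring
    simp only [e]
    rw [intervalIntegral.integral_finsetSum fun m _ =>
      Continuous.intervalIntegrable (by fun_prop) _ _]
    simp only [ee_orth, SS, cnt, sub_eq_zero, sum_boole]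
  | succ j ih =>
    intro W F
    simp only [SS, sum_mul]
    have hc := SS_cont N j
    rw [intervalIntegral.integral_finsetSum fun m _ =>
      Continuous.intervalIntegrable (by fun_prop) _ _, Nat.cast_sum]
    exact sum_congr rfl fun a _ => ih _ _

theorem cnt_le {F : ℤ[X]} (h : 1 ≤ F.natDegree) (s : ℤ) (W : Finset ℤ) :
    cnt s W F ≤ F.natDegree := by
  have h0 : F - C s ≠ 0 := fun e => by
    rw [sub_eq_zero.1 e, natDegree_C] at h
    omega
  refine le_trans (card_le_degree_of_subset_roots (p := F - C s) fun x hx => ?_)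
    natDegree_sub_C.le
  rw [mem_roots h0, IsRoot, eval_sub, eval_C, (mem_filter.1 hx).2, sub_self]

theorem deg_le (a : ℤ) (F : ℤ[X]) : (taylor a F - F).natDegree ≤ F.natDegree :=
  (natDegree_sub_le _ _).trans (by simp)

theorem deg_ge {a : ℤ} (ha : a ≠ 0) {F : ℤ[X]} {j : ℕ} (h : j + 1 ≤ F.natDegree) :
    j ≤ (taylor a F - F).natDegree := by
  obtain ⟨n, hn⟩ : ∃ n, F.natDegree = n + 1 := ⟨F.natDegree - 1, by omega⟩
  have h0 : F.coeff (n + 1) ≠ 0 := by
    rw [← hn]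
    exact leadingCoeff_ne_zero.2 fun e => by simp [e] at hn
  refine le_trans (by omega : j ≤ n) (le_natDegree_of_ne_zero ?_)
  have h1 : (hasseDeriv n F).natDegree < 2 := by
    have := natDegree_hasseDeriv_le F n
    omega
  rw [coeff_sub, taylor_coeff, eval_eq_sum_range' h1]
  simp only [sum_range_succ, sum_range_zero, hasseDeriv_coeff, zero_add, Nat.choose_self,
    Nat.cast_one, one_mul, pow_zero, mul_one, pow_one, add_sub_cancel_left, add_comm 1 n]
  refine mul_ne_zero (mul_ne_zero ?_ h0) ha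
  exact_mod_cast (Nat.choose_pos (Nat.le_succ n)).ne'

theorem SS_all {N : ℕ} (s : ℤ) (j : ℕ) : ∀ (W : Finset ℤ) (F : ℤ[X]), W ⊆ Icc 1 (N : ℤ) →
    SS N (cnt s) j W F ≤ W.card ^ (j + 1) := by
  induction j with
  | zero => exact fun W F _ => (card_filter_le _ _).trans (pow_one _).ge
  | succ j ih =>
    exact fun W F hW => (sum_le_sum fun a _ => ih _ _ ((filter_subset _ _).trans hW)).trans
      (shift_card hW j)

theorem SS_zero {N k : ℕ} (j : ℕ) : ∀ (W : Finset ℤ) (F : ℤ[X]), W ⊆ Icc 1 (N : ℤ) →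
    j + 1 ≤ F.natDegree → F.natDegree ≤ k →
    SS N (cnt 0) (j + 1) W F ≤ (k + j) * W.card ^ (j + 1) := by
  induction j with
  | zero =>
    intro W F hW h1 h2
    have h := shift_sum hW fun x y => if F.eval y = F.eval x then (1 : ℕ) else 0
    simp only [SS, cnt, card_filter, eval_sub, taylor_eval, sub_eq_zero]
    rw [h]
    refine (sum_le_card_nsmul _ _ k fun x _ => ?_).trans (le_of_eq (by simp [mul_comm]))
    rw [← card_filter]
    exact (cnt_le h1 _ W).trans h2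
  | succ j ih =>
    intro W F hW h1 h2
    have h3 : ∀ a ∈ Icc (-(N : ℤ)) N,
        SS N (cnt 0) (j + 1) (W.filter fun x => x + a ∈ W) (taylor a F - F) ≤
          (if a = 0 then W.card ^ (j + 2) else 0) +
            (k + j) * (W.filter fun x => x + a ∈ W).card ^ (j + 1) := fun a _ => by
      split_ifs with ha
      · exact le_add_right ((SS_all 0 _ _ _ ((filter_subset _ _).trans hW)).trans
          (Nat.pow_le_pow_left (card_filter_le _ _) _))
      · rw [zero_add]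
        exact ih _ _ ((filter_subset _ _).trans hW) (deg_ge ha h1) ((deg_le a F).trans h2)
    refine (sum_le_sum h3).trans ?_
    rw [sum_add_distrib, ← mul_sum, sum_ite_eq']
    have h4 := Nat.mul_le_mul_left (k + j) (shift_card hW j)
    have h5 : (if (0 : ℤ) ∈ Icc (-(N : ℤ)) N then W.card ^ (j + 2) else 0) ≤ W.card ^ (j + 2) := by
      split_ifs <;> simp
    calc _ ≤ W.card ^ (j + 2) + (k + j) * W.card ^ (j + 2) := add_le_add h5 h4
      _ = _ := by ring

theorem SS_dvd {N : ℕ} {a s : ℤ} (h : ¬ a ∣ s) (j : ℕ) : ∀ (W : Finset ℤ) (F : ℤ[X]),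
    (∀ x, a ∣ F.eval x) → SS N (cnt s) j W F = 0 := by
  induction j with
  | zero =>
    exact fun W F hF => card_eq_zero.2 (filter_eq_empty_iff.2 fun x _ e => h (e ▸ hF x))
  | succ j ih =>
    refine fun W F hF => sum_eq_zero fun b _ => ih _ _ fun x => ?_
    rw [eval_sub, taylor_eval]
    exact dvd_sub (hF _) (hF _)

theorem card_dvd {s : ℤ} (hs : s ≠ 0) (V : Finset ℤ) :
    (V.filter fun a => a ∣ s).card ≤ 2 * s.natAbs.divisors.card := by
  have h : (V.filter fun a => a ∣ s) ⊆ (s.natAbs.divisors.image fun d : ℕ => (d : ℤ)) ∪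
      s.natAbs.divisors.image fun d : ℕ => -(d : ℤ) := fun a ha => by
    have h1 : a.natAbs ∈ s.natAbs.divisors := Nat.mem_divisors.2
      ⟨Int.natAbs_dvd_natAbs.2 (mem_filter.1 ha).2, Int.natAbs_ne_zero.2 hs⟩
    rcases Int.natAbs_eq a with e | e
    · exact mem_union_left _ (mem_image.2 ⟨_, h1, e.symm⟩)
    · exact mem_union_right _ (mem_image.2 ⟨_, h1, e.symm⟩)
  refine (card_le_card h).trans ((card_union_le _ _).trans ?_)
  rw [two_mul]
  exact add_le_add card_image_le card_image_le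

theorem SS_ne {N k : ℕ} {s : ℤ} (hs : s ≠ 0) (j : ℕ) : ∀ (W : Finset ℤ) (F : ℤ[X]),
    j + 1 ≤ F.natDegree → F.natDegree ≤ k →
    SS N (cnt s) j W F ≤ (2 * s.natAbs.divisors.card) ^ j * k := by
  induction j with
  | zero => exact fun W F h1 h2 => (cnt_le h1 s W).trans (by simpa using h2)
  | succ j ih =>
    intro W F h1 h2
    have h3 : ∀ a ∈ Icc (-(N : ℤ)) N,
        SS N (cnt s) j (W.filter fun x => x + a ∈ W) (taylor a F - F) ≤
          if a ∣ s then (2 * s.natAbs.divisors.card) ^ j * k else 0 := fun a _ => by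
      split_ifs with ha
      · exact ih _ _ (deg_ge (fun e => hs (zero_dvd_iff.1 (e ▸ ha))) h1) ((deg_le a F).trans h2)
      · refine (SS_dvd ha j _ _ fun x => ?_).le
        rw [eval_sub, taylor_eval]
        simpa using sub_dvd_eval_sub (x + a) x F
    refine (sum_le_sum h3).trans ?_
    rw [← sum_filter, sum_const, smul_eq_mul, pow_succ', mul_assoc]
    exact Nat.mul_le_mul_right _ (card_dvd hs _)

/-- Pairs of `m`-tuples. -/
def YY (W : Finset ℤ) (m : ℕ) : Finset ((Fin m → ℤ) × (Fin m → ℤ)) :=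
  Fintype.piFinset (fun _ => W) ×ˢ Fintype.piFinset fun _ => W

/-- The difference of the two sums of values. -/
def cc (F : ℤ[X]) {m : ℕ} (y : (Fin m → ℤ) × (Fin m → ℤ)) : ℤ :=
  ∑ i, F.eval (y.1 i) - ∑ i, F.eval (y.2 i)

/-- The number of solutions of the symmetric equation in `2 m` variables. -/
def EN (F : ℤ[X]) (W : Finset ℤ) (m : ℕ) : ℕ := ((YY W m).filter fun y => cc F y = 0).card

theorem ee_sum {ι : Type} (T : Finset ι) (c : ι → ℝ) : ee (∑ i ∈ T, c i) = ∏ i ∈ T, ee (c i) := by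
  classical
  induction T using Finset.induction_on with
  | empty => simp [ee_zero]
  | insert a T h ih => rw [sum_insert h, prod_insert h, ee_add, ih]

theorem ff_pow (t : ℝ) (W : Finset ℤ) (F : ℤ[X]) (m : ℕ) :
    ((‖ff t W F‖ ^ (2 * m) : ℝ) : ℂ) = ∑ y ∈ YY W m, ee ((-cc F y : ℤ) * t) := by
  have h : ff t W F ^ m = ∑ y ∈ Fintype.piFinset fun _ : Fin m => W,
      ee ((∑ i, F.eval (y i) : ℤ) * t) := by
    rw [ff, sum_pow']
    refine sum_congr rfl fun y _ => ?_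
    rw [← ee_sum, Int.cast_sum, sum_mul]
  rw [mul_comm, pow_mul, ← norm_pow, h, norm_sq_sum, YY, sum_product]
  simp only [cc, neg_sub]

theorem ff_int (W : Finset ℤ) (F : ℤ[X]) (m : ℕ) :
    ∫ t in (0 : ℝ)..1, ‖ff t W F‖ ^ (2 * m) = EN F W m := by
  have hce := continuous_ee
  apply Complex.ofReal_injective
  rw [← intervalIntegral.integral_ofReal]
  simp only [ff_pow]
  rw [intervalIntegral.integral_finsetSum fun m _ =>
    Continuous.intervalIntegrable (by fun_prop) _ _]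
  simp only [ee_orth, EN, neg_eq_zero, sum_boole, Complex.ofReal_natCast]

theorem card_YY (W : Finset ℤ) (m : ℕ) : (YY W m).card = W.card ^ (2 * m) := by
  rw [YY, card_product, Fintype.card_piFinset_const, ← pow_add, two_mul]

/-- One step of Hua's induction. -/
theorem hua_step {N k j : ℕ} {W : Finset ℤ} {F : ℤ[X]} (hW : W ⊆ Icc 1 (N : ℤ))
    (h1 : j + 2 ≤ F.natDegree) (h2 : F.natDegree ≤ k) {D : ℝ} (hD0 : 0 ≤ D)
    (hD : ∀ y ∈ YY W (2 ^ j), cc F y ≠ 0 →
      (((2 * (cc F y).natAbs.divisors.card) ^ (j + 1) * k : ℕ) : ℝ) ≤ D) :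
    (EN F W (2 ^ (j + 1)) : ℝ) * (2 * N + 1 : ℝ) ^ (j + 2) ≤ (2 * N + 1 : ℝ) ^ 2 ^ (j + 1) *
      ((k + j) * W.card ^ (j + 1) * EN F W (2 ^ j) + D * W.card ^ 2 ^ (j + 1)) := by
  have hce := continuous_ee
  have hc := SS_cont N (j + 1) W F
  have hf : Continuous fun t => ff t W F := SS_cont N 0 W F
  have e1 : ∫ t in (0 : ℝ)..1, (SS N (ff t) (j + 1) W F).re * ‖ff t W F‖ ^ (2 * 2 ^ j) =
      ∑ y ∈ YY W (2 ^ j), (SS N (cnt (cc F y)) (j + 1) W F : ℕ) := by
    have e2 : ∀ t : ℝ, (SS N (ff t) (j + 1) W F).re * ‖ff t W F‖ ^ (2 * 2 ^ j) =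
        Complex.reCLM (∑ y ∈ YY W (2 ^ j), SS N (ff t) (j + 1) W F * ee ((-cc F y : ℤ) * t)) := by
      intro t
      rw [← mul_sum, ← ff_pow, Complex.reCLM_apply, Complex.re_mul_ofReal]
    simp only [e2]
    rw [Complex.reCLM.intervalIntegral_comp_comm (Continuous.intervalIntegrable (by fun_prop) _ _),
      intervalIntegral.integral_finsetSum fun m _ =>
        Continuous.intervalIntegrable (by fun_prop) _ _]
    simp only [SS_int]
    rw [← Nat.cast_sum, Complex.reCLM_apply, Complex.natCast_re]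
  have e3 : ((∑ y ∈ YY W (2 ^ j), (SS N (cnt (cc F y)) (j + 1) W F : ℕ) : ℕ) : ℝ) ≤
      (k + j) * W.card ^ (j + 1) * EN F W (2 ^ j) + D * W.card ^ 2 ^ (j + 1) := by
    have h3 : ∀ y ∈ YY W (2 ^ j), ((SS N (cnt (cc F y)) (j + 1) W F : ℕ) : ℝ) ≤
        (if cc F y = 0 then ((k + j) * W.card ^ (j + 1) : ℝ) else 0) + D := fun y hy => by
      split_ifs with h0
      · rw [h0]
        exact le_add_of_le_of_nonneg (by exact_mod_cast SS_zero j W F hW (by omega) h2) hD0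
      · rw [zero_add]
        exact le_trans (Nat.cast_le.2 (SS_ne h0 (j + 1) W F h1 h2)) (hD y hy h0)
    rw [Nat.cast_sum]
    refine (sum_le_sum h3).trans (le_of_eq ?_)
    rw [sum_add_distrib, ← sum_filter, sum_const, sum_const, card_YY, ← pow_succ', nsmul_eq_mul,
      nsmul_eq_mul, EN]
    push_cast
    ring
  refine le_trans ?_ (mul_le_mul_of_nonneg_left e3 (by positivity))
  rw [← e1, ← ff_int, ← intervalIntegral.integral_mul_const, ← intervalIntegral.integral_const_mul]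
  refine intervalIntegral.integral_mono_on zero_le_one
    (Continuous.intervalIntegrable (by fun_prop) _ _)
    (Continuous.intervalIntegrable (by fun_prop) _ _) fun t _ => ?_
  have h4 := mul_le_mul_of_nonneg_right (weyl t j W F hW)
    (pow_nonneg (norm_nonneg (ff t W F)) (2 ^ (j + 1)))
  rw [← pow_succ' 2 j, two_mul (2 ^ (j + 1)), pow_add ‖ff t W F‖, mul_right_comm, ← mul_assoc]
  exact h4

theorem eval_le (F : ℤ[X]) : ∃ M : ℝ, 1 ≤ M ∧ ∀ (N : ℕ) (x : ℤ), x ∈ Icc 1 (N : ℤ) →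
    |((F.eval x : ℤ) : ℝ)| ≤ M * (N : ℝ) ^ F.natDegree := by
  have h0 : (0 : ℝ) ≤ ∑ i ∈ range (F.natDegree + 1), |(F.coeff i : ℝ)| := by positivity
  refine ⟨1 + ∑ i ∈ range (F.natDegree + 1), |(F.coeff i : ℝ)|, by linarith, fun N x hx => ?_⟩
  have h1 : (1 : ℝ) ≤ x := by exact_mod_cast (mem_Icc.1 hx).1
  have h2 : (x : ℝ) ≤ N := by exact_mod_cast (mem_Icc.1 hx).2
  rw [eval_eq_sum_range, add_mul, sum_mul]
  push_cast
  refine le_add_of_nonneg_of_le (by positivity) ((abs_sum_le_sum_abs _ _).trans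
    (sum_le_sum fun i hi => ?_))
  rw [abs_mul, abs_of_nonneg (pow_nonneg (by linarith : (0 : ℝ) ≤ x) i)]
  refine mul_le_mul_of_nonneg_left ((pow_le_pow_left₀ (by linarith) h2 i).trans
    (pow_le_pow_right₀ (h1.trans h2) (Nat.lt_succ_iff.1 (mem_range.1 hi)))) (abs_nonneg _)

theorem div_le (F : ℤ[X]) (m j : ℕ) {ε : ℝ} (hε : 0 < ε) : ∃ D : ℝ, 0 ≤ D ∧
    ∀ (N : ℕ) (W : Finset ℤ), 1 ≤ N → W ⊆ Icc 1 (N : ℤ) → ∀ y ∈ YY W m,
      (((2 * (cc F y).natAbs.divisors.card) ^ (j + 1) * F.natDegree : ℕ) : ℝ) ≤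
        D * (N : ℝ) ^ ε := by
  obtain ⟨M, hM, h⟩ := eval_le F
  have hδ : 0 < ε / ((j + 1) * (F.natDegree + 1)) := by positivity
  obtain ⟨C, hC, hd⟩ := MP_2a1a00_nt.card_divisors_le _ hδ
  set δ := ε / ((j + 1) * (F.natDegree + 1)) with hδ'
  refine ⟨(2 * (C * (2 * m * M) ^ δ)) ^ (j + 1) * F.natDegree, by positivity,
    fun N W hN hW y hy => ?_⟩
  have n1 : (1 : ℝ) ≤ N := by exact_mod_cast hN
  have h1 : ∀ z ∈ Fintype.piFinset fun _ : Fin m => W,
      |((∑ i, F.eval (z i) : ℤ) : ℝ)| ≤ m * (M * (N : ℝ) ^ F.natDegree) := fun z hz => by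
    rw [Int.cast_sum]
    refine (abs_sum_le_sum_abs _ _).trans ((sum_le_card_nsmul _ _ _ fun i _ =>
      h N _ (hW (Fintype.mem_piFinset.1 hz i))).trans (le_of_eq ?_))
    simp
  have h2 : (((cc F y).natAbs : ℕ) : ℝ) ≤ 2 * m * M * (N : ℝ) ^ (F.natDegree + 1) := by
    have a1 := h1 _ (mem_product.1 hy).1
    have a2 := h1 _ (mem_product.1 hy).2
    have a3 : (N : ℝ) ^ F.natDegree ≤ (N : ℝ) ^ (F.natDegree + 1) :=
      pow_le_pow_right₀ n1 (Nat.le_succ _)
    rw [Nat.cast_natAbs, Int.cast_abs, cc, Int.cast_sub]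
    refine (abs_sub _ _).trans ((add_le_add a1 a2).trans ?_)
    calc _ = 2 * m * M * (N : ℝ) ^ F.natDegree := by ring
      _ ≤ _ := by gcongr
  have h3 := (hd _).trans (mul_le_mul_of_nonneg_left
    (Real.rpow_le_rpow (Nat.cast_nonneg _) h2 hδ.le) hC)
  rw [Real.mul_rpow (by positivity) (by positivity)] at h3
  have h4 : (((N : ℝ) ^ (F.natDegree + 1)) ^ δ) ^ (j + 1) = (N : ℝ) ^ ε := by
    rw [← Real.rpow_natCast, ← Real.rpow_natCast, ← Real.rpow_mul (by positivity),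
      ← Real.rpow_mul (by positivity), hδ']
    congr 1
    push_cast
    field_simp
  push_cast
  calc _ ≤ (2 * (C * ((2 * m * M) ^ δ * ((N : ℝ) ^ (F.natDegree + 1)) ^ δ))) ^ (j + 1) *
        F.natDegree := by gcongr
    _ = _ := by rw [← h4]; ring

/-- Hua's lemma on a subset, with natural exponents. -/
theorem hua_nat (F : ℤ[X]) {ε : ℝ} (hε : 0 < ε) (j : ℕ) (hj : j + 1 ≤ F.natDegree) :
    ∃ a b : ℕ, 2 * b = j * (j + 1) + 2 ∧ a + b + j + 1 = 2 ^ (j + 1) ∧ ∃ C : ℝ, 0 ≤ C ∧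
      ∀ (N : ℕ) (W : Finset ℤ), 1 ≤ N → W ⊆ Icc 1 (N : ℤ) →
        (EN F W (2 ^ j) : ℝ) ≤ C * (N : ℝ) ^ ε * (N : ℝ) ^ a * (W.card : ℝ) ^ b := by
  induction j with
  | zero =>
    refine ⟨0, 1, by norm_num, by norm_num, F.natDegree, by positivity, fun N W hN hW => ?_⟩
    have h1 := SS_int N 0 1 W F
    simp only [← ff_sq hW, neg_zero, Int.cast_zero, zero_mul, ee_zero, mul_one] at h1
    rw [intervalIntegral.integral_ofReal, ← mul_one 2, ff_int] at h1
    have h2 : EN F W 1 = SS N (cnt 0) 1 W F := by exact_mod_cast h1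
    have h3 : (EN F W 1 : ℝ) ≤ F.natDegree * W.card := by
      have := SS_zero (N := N) 0 W F hW hj le_rfl
      rw [h2]
      exact_mod_cast (by simpa using this)
    have h4 : 1 ≤ (N : ℝ) ^ ε := Real.one_le_rpow (by exact_mod_cast hN) hε.le
    rw [pow_zero, pow_zero, mul_one, pow_one]
    exact h3.trans (mul_le_mul_of_nonneg_right (le_mul_of_one_le_right (by positivity) h4)
      (by positivity))
  | succ j ih =>
    obtain ⟨a, b, hb, hab, C, hC, h⟩ := ih (by omega)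
    obtain ⟨D, hD, hd⟩ := div_le F (2 ^ j) j hε
    obtain ⟨e, he⟩ : ∃ e, e + (j + 2) = 2 ^ (j + 1) := ⟨a + b - 1, by omega⟩
    refine ⟨e + a, b + j + 1, by rw [mul_add, mul_add, hb]; ring, by rw [pow_succ]; omega,
      3 ^ e * ((F.natDegree + j) * C + D), by positivity, fun N W hN hW => ?_⟩
    have n1 : (1 : ℝ) ≤ N := by exact_mod_cast hN
    have h1 := hua_step hW hj le_rfl (by positivity) fun y hy _ => hd N W hN hW y hy
    have e1 : (2 * N + 1 : ℝ) ^ 2 ^ (j + 1) = (2 * N + 1 : ℝ) ^ e * (2 * N + 1 : ℝ) ^ (j + 2) := by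
      rw [← pow_add, he]
    rw [e1, mul_right_comm ((2 * N + 1 : ℝ) ^ e)] at h1
    have h2 := le_of_mul_le_mul_right h1 (by positivity)
    have h3 : (W.card : ℝ) ≤ N := by
      have := card_le_card hW
      rw [Int.card_Icc, add_sub_cancel_right, Int.toNat_natCast] at this
      exact_mod_cast this
    have h4 : (W.card : ℝ) ^ 2 ^ (j + 1) ≤ (N : ℝ) ^ a * (W.card : ℝ) ^ (b + j + 1) := by
      rw [← hab, add_assoc, add_assoc, pow_add, ← add_assoc]
      gcongr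
    have h5 := h N W hN hW
    have h6 : (2 * N + 1 : ℝ) ≤ 3 * N := by linarith
    calc _ ≤ _ := h2
      _ ≤ (3 * N : ℝ) ^ e * ((F.natDegree + j) * W.card ^ (j + 1) *
          (C * (N : ℝ) ^ ε * (N : ℝ) ^ a * (W.card : ℝ) ^ b) +
            D * (N : ℝ) ^ ε * ((N : ℝ) ^ a * (W.card : ℝ) ^ (b + j + 1))) := by gcongr
      _ = _ := by ring

end Pool.Agent.Lib.MP_778b46_nt.Th
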