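import Pool.Agent.Lib.MP_778b46_nt.Th.DefsG
import Pool.Agent.Lib.MP_778b46_nt.Th.End
import Pool.Agent.Lib.MP_778b46_nt.GX.Bs3
import Pool.Agent.Lib.MP_778b46_nt.GX.Cert4

/-! The assembly of `GX.Bs2`, `GX.Bs3` with exceptional sets of large energy. -/

set_option autoImplicit false

noncomputable section

namespace Pool.Agent.Lib.MP_778b46_nt.Th

open Finset Filter GX GX.P3
open scoped Classical

theorem good_mul {q G : ℕ} {M P B : ℝ} (hM : 0 ≤ M) (hP0 : 0 < P) (hP : P ≤ q) (hG : 1 ≤ G)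
    (hB : (G : ℝ) ≤ B) : Good ((Icc 1 ⌊M⌋₊).filter fun m => q ∣ m * G) (B * M / P + 1) 2 := by
  obtain ⟨d, G', h1, h2, h3⟩ := Nat.exists_coprime q G
  have g0 : 0 < Nat.gcd q G := Nat.gcd_pos_of_pos_right _ hG
  have g1 : (Nat.gcd q G : ℝ) ≤ B := (Nat.cast_le.2 (Nat.gcd_le_right _ hG)).trans hB
  have B0 : 0 < B := (Nat.cast_pos.2 g0).trans_le g1
  generalize Nat.gcd q G = g at *
  rw [show B * M / P = M / (P / B) by field_simp]
  refine good_prog (d := d) (by positivity) ?_ hM fun m hm => ⟨?_, ?_⟩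
  · rw [div_le_iff₀ B0]
    refine hP.trans ?_
    rw [h2, Nat.cast_mul]
    gcongr
  · have h4 := (mem_filter.1 hm).2
    rw [h2, h3, ← mul_assoc] at h4
    exact h1.dvd_of_dvd_mul_right (Nat.dvd_of_mul_dvd_mul_right g0 h4)
  · exact (Nat.cast_le.2 (mem_Icc.1 (mem_filter.1 hm).1).2).trans (Nat.floor_le hM)

theorem as3_EG {ι : Type} (S : Finset ι) (r : ι → ℕ) (hr : ∀ i, 1 ≤ r i) {N : ℕ} (hN : S.card ≤ N)
    {R P M : ℝ} (hR : 1 ≤ R) (hP0 : 0 < P) (hM : 0 ≤ M) :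
    ∃ E : Finset ℕ, Good E (R ^ N * M / P + 1) (2 ^ N * (R ^ N * 2)) ∧
      ∀ m : ℕ, 1 ≤ m → (m : ℝ) ≤ M → m ∉ E → ∃ q : ℕ, 1 ≤ q ∧ (q : ℝ) ≤ P ∧
        (∀ Q : ℕ, (∀ i, r i ∣ Q) → q ∣ Q) ∧
        ∀ i ∈ S, ((r i / Nat.gcd (r i) m : ℕ) : ℝ) ≤ R → r i ∣ q := by
  have hB : 1 ≤ R ^ N := one_le_pow₀ hR
  have hl : ∀ J : Finset ι, 1 ≤ J.lcm r := fun J =>
    Nat.pos_of_ne_zero (by
      rw [Ne, Finset.lcm_eq_zero_iff]
      rintro ⟨i, -, hi⟩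
      have := hr i
      omega)
  refine ⟨(S.powerset.filter fun J => P < (J.lcm r : ℕ)).biUnion fun J =>
    (Icc 1 ⌊R ^ N⌋₊).biUnion fun G => (Icc 1 ⌊M⌋₊).filter fun m => J.lcm r ∣ m * G, ?_, ?_⟩
  · refine good_biUnion _ _ (by positivity) (by positivity) ?_ fun J hJ =>
      good_biUnion _ _ (by positivity) (by positivity) ?_ fun G hG =>
        good_mul hM hP0 (mem_filter.1 hJ).2.le (mem_Icc.1 hG).1
          ((Nat.cast_le.2 (mem_Icc.1 hG).2).trans (Nat.floor_le (by linarith)))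
    · calc _ ≤ ((S.powerset.card : ℕ) : ℝ) := Nat.cast_le.2 (card_filter_le _ _)
        _ ≤ 2 ^ N := by
          rw [card_powerset]
          push_cast
          exact pow_le_pow_right₀ (by norm_num) hN
    · rw [Nat.card_Icc, Nat.add_sub_cancel]
      exact Nat.floor_le (by linarith)
  · intro m hm1 hm2 hm
    set J := S.filter fun i => ((r i / Nat.gcd (r i) m : ℕ) : ℝ) ≤ R with hJ
    refine ⟨J.lcm r, hl J, ?_, fun Q hQ => Finset.lcm_dvd fun i _ => hQ i, fun i hi h =>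
      Finset.dvd_lcm (mem_filter.2 ⟨hi, h⟩)⟩
    by_contra hcon
    refine hm (mem_biUnion.2 ⟨J, mem_filter.2 ⟨mem_powerset.2 (filter_subset _ _),
      not_le.1 hcon⟩, mem_biUnion.2 ⟨∏ i ∈ J, r i / Nat.gcd (r i) m, mem_Icc.2 ⟨?_, ?_⟩,
        mem_filter.2 ⟨mem_Icc.2 ⟨hm1, Nat.le_floor hm2⟩, Finset.lcm_dvd fun i hi => ?_⟩⟩⟩)
    · exact one_le_prod' fun i _ => as3_qd_pos (hr i) m
    · refine Nat.le_floor ?_
      calc _ = ∏ i ∈ J, ((r i / Nat.gcd (r i) m : ℕ) : ℝ) := Nat.cast_prod _ _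
        _ ≤ ∏ i ∈ J, R := prod_le_prod (fun i _ => Nat.cast_nonneg _) fun i hi =>
            (mem_filter.1 hi).2
        _ ≤ R ^ N := by
            rw [prod_const]
            exact pow_le_pow_right₀ hR ((card_filter_le _ _).trans hN)
    · exact (as3_dvd_mul (r i) m).trans (Nat.mul_dvd_mul_left m (dvd_prod_of_mem _ hi))

theorem caseCG {C A K c' L s0 d1 η : ℝ} (hC : 1 ≤ C) (hA : 1 ≤ A) (hc : 0 < c') (hL : 12 / 5 ≤ L)
    (hs : 0 < s0) (hd : 0 < d1) (hη : 0 < η) (hCE : FIN L) :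
    ∃ K' : ℝ, 0 ≤ K' ∧ ∀ᶠ P : ℝ in atTop,
      ∀ (Q : ℕ) [NeZero Q] (ι : Type) [Fintype ι] (χ : ι → DC Q) (ρ : ι → ℂ) (T : ℝ), P ^ η ≤ T →
      Full (fun ξ z => cd ξ ≤ P ∧ 1 - d1 ≤ z.re ∧ |z.im| ≤ T) χ ρ →
      Big χ ρ (fun i => lam P (ρ i)) P A → (∀ i, s0 ≤ lam P (ρ i)) → ∀ M : ℝ, 0 ≤ M →
      ∃ E : Finset ℕ, Good E (K' * M / P + 1) K' ∧ ∀ m : ℕ, 1 ≤ m → (m : ℝ) ≤ M → m ∉ E →
        T2 C m χ ρ (yw L fun i => lam P (ρ i)) univ + T1 C χ ρ (yw L fun i => lam P (ρ i)) univ +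
          K * P ^ (-c') < 1 := by
  obtain ⟨k0, hk, hCE⟩ := hCE s0 hs
  have hk5 : 0 < k0 / 5 := by positivity
  obtain ⟨H, hH1, hH⟩ := ((as8_exp (a := 7 * C * A ^ 2) (b := 1 / 5) (by norm_num) hk5).and
    (eventually_ge_atTop 10)).exists
  obtain ⟨Y0, hY0⟩ := eventually_atTop.1 ((as8_small (a := 7 * C * A ^ 2) (b := 1 / 8)
    (by norm_num) hk5).and (eventually_ge_atTop 1))
  obtain ⟨R0, hR0⟩ := eventually_atTop.1 ((as8_small (a := 7 * C * A ^ 2) (b := 1 / 3)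
    (by norm_num) hk5).and (eventually_ge_atTop 1))
  have y1 : 1 ≤ Y0 := (hY0 Y0 le_rfl).2
  have r1 : 1 ≤ R0 := (hR0 R0 le_rfl).2
  obtain ⟨N, hN⟩ : ∃ N : ℕ, A * Real.exp (109 / 50 * H) ≤ N := ⟨_, Nat.le_ceil _⟩
  have yk : ∀ k : ℕ, Y0 ≤ 5 ^ k * Y0 := fun k =>
    le_mul_of_one_le_left (by linarith) (one_le_pow₀ (by norm_num))
  have rl : ∀ l : ℕ, R0 ≤ R0 ^ 2 ^ l := fun l => le_self_pow₀ r1 (by positivity)
  obtain ⟨c0, hc0, hZ⟩ := zfs (R0 ^ 2 ^ N ^ 2) (5 * (5 ^ N * Y0))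
  have hcc : ∀ᶠ P : ℝ in atTop, ∀ k ∈ range (N + 1), ∀ l ∈ range (N ^ 2 + 1), _ :=
    (eventually_all_finset _).2 fun k _ => (eventually_all_finset _).2 fun l _ =>
      hCE H _ _ hH (y1.trans (yk k)) (r1.trans (rl l))
  refine ⟨2 ^ N * ((R0 ^ 2 ^ N ^ 2) ^ N * 2), by positivity, ?_⟩
  filter_upwards [hcc, as8_small (a := K) hc hk5, eventually_ge_atTop 1,
    (Real.tendsto_log_atTop.const_mul_atTop hc0).eventually_ge_atTop H,
    (Real.tendsto_log_atTop.const_mul_atTop hd).eventually_ge_atTop H,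
    Real.tendsto_log_atTop.eventually_gt_atTop 0,
    (tendsto_rpow_atTop hη).eventually_ge_atTop (5 * (5 ^ N * Y0))]
    with P hcc hKP hP hcH hdH hlog hPη Q _ ι _ χ ρ T hT hF hB hs0 M hM
  have hS := hF.sub
  obtain ⟨S, hSd⟩ : ∃ S : Finset ι, S = (NP χ).filter fun i => lam P (ρ i) ≤ H := ⟨_, rfl⟩
  have hSN : S.card ≤ N := by
    have := (as4_card hB H).trans hN
    rw [hSd]
    exact_mod_cast this
  have mS : ∀ i, i ∈ S ↔ χ i ≠ 1 ∧ lam P (ρ i) ≤ H := fun i => by simp [hSd, NP]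
  obtain ⟨k, hkN, hgy⟩ := as3_height S (fun i => |(ρ i).im|) (Y0 := Y0) (by linarith) hSN
  obtain ⟨l, hlN, hgr⟩ := as3_cond S (fun i j => cd (χ i / χ j)) r1 hSN
  have hYm : 5 ^ k * Y0 ≤ 5 ^ N * Y0 := by gcongr; norm_num
  have hRm : R0 ^ 2 ^ l ≤ R0 ^ 2 ^ N ^ 2 := pow_le_pow_right₀ r1 (by gcongr; norm_num)
  have hcc := hcc k (by simpa using Nat.lt_succ_of_le hkN) l (by simpa using Nat.lt_succ_of_le hlN)
  obtain ⟨eY, y2⟩ := hY0 _ (yk k)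
  obtain ⟨eR, r2⟩ := hR0 _ (rl l)
  generalize 5 ^ k * Y0 = Y at *
  generalize R0 ^ 2 ^ l = R at *
  obtain ⟨E, hE1, hE2⟩ := as3_EG S (fun i => (χ i).conductor)
    (fun i => Nat.pos_of_ne_zero (χ i).conductor_ne_zero) hSN r2 (by linarith : 0 < P) hM
  have hK1 : R ^ N ≤ (R0 ^ 2 ^ N ^ 2) ^ N := by gcongr
  have hK2 : R ^ N ≤ 2 ^ N * ((R0 ^ 2 ^ N ^ 2) ^ N * 2) :=
    (hK1.trans (le_mul_of_one_le_right (by positivity) one_le_two)).trans
      (le_mul_of_one_le_left (by positivity) (one_le_pow₀ one_le_two))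
  refine ⟨E, hE1.mono subset_rfl (by positivity) (by positivity) (by gcongr) (by gcongr),
    fun m m1 m2 m3 => ?_⟩
  obtain ⟨q, q1, q2, q3, q4⟩ := hE2 m m1 m2 m3
  have hz : ∀ i, cd (χ i) ≤ R → |(ρ i).im| ≤ 5 * Y → H < lam P (ρ i) := by
    intro i a1 a2
    have a3 : (ρ i).re < 1 - c0 := by
      by_contra a3
      exact hS.ord_ne_zero i (hZ Q _ _ (a1.trans hRm) (by linarith) (not_lt.1 a3))
    have : c0 * Real.log P < (1 - (ρ i).re) * Real.log P := by gcongr; linarith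
    exact hcH.trans_lt this
  have h1 := P3.as4_core (m := m) (q := q) hB hA hL hC (by linarith : 0 ≤ H) y2 r2
    (fun i a1 a2 a3 => q4 i ((mS i).2 ⟨by simpa [NP] using a1, a2⟩) a3) hz
  have hR' : ∀ i, lam P (ρ i) ≤ H → |(ρ i).im| ≤ 5 * Y → R < cd (χ i) := fun i a1 a2 =>
    lt_of_not_ge fun a3 => absurd (hz i a3 a2) (not_lt.2 a1)
  have hin : ∀ i, lam P (ρ i) ≤ H → |(ρ i).im| ≤ 5 * Y → i ∈ S := fun i a1 a2 => by
    refine (mS i).2 ⟨fun a3 => ?_, a1⟩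
    have := hR' i a1 a2
    rw [a3, cd_one] at this
    linarith
  have h2 := hcc Q q _ _ _ q1 (q3 Q fun i => (χ i).conductor_dvd_level) q2
    (hF.restrict (S' := fun ξ z => ξ.conductor ∣ q ∧ lam P z ≤ H ∧ |z.im| ≤ 5 * Y) (by
      rintro ξ z ⟨a1, a2, a3⟩
      refine ⟨le_trans (by unfold cd; exact_mod_cast Nat.le_of_dvd q1 a1) q2, ?_, by linarith⟩
      have := le_of_mul_le_mul_right (a2.trans hdH) hlog
      linarith))
    (fun i => hgy i.1 (hin _ i.2.2.1 i.2.2.2) i.2.2.2) (fun i => hR' _ i.2.2.1 i.2.2.2)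
    (fun i j => hgr i.1 (hin _ i.2.2.1 i.2.2.2) j.1 (hin _ j.2.2.1 j.2.2.2)) fun i => hs0 i.1
  rw [as8_sub] at h1
  have h3 := h1.trans (add_le_add_left h2 _)
  linarith

theorem as5_localG {th L te : ℝ} (h0 : 0 < th) (hL : 12 / 5 ≤ L) (hL' : L < 1 / th)
    (hte : 1 - th < te) (hT : TB (1 / 3)) (hD : DH (1 / 3))
    (hM : MAG th) (hE : FIN L) : ∃ K : ℝ, 0 ≤ K ∧ ∀ᶠ X : ℝ in atTop, ∃ E : Finset ℕ,
      Good E (K * X ^ te) (K * X ^ (te - 1 + th)) ∧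
        ∀ m : ℕ, Even m → X ≤ m → (m : ℝ) ≤ 5 / 4 * X → m ∉ E → Gb m := by
  obtain ⟨η1, ε1, s0, CD, P1, hη1, hε1, hs0, hD⟩ := hD (167 / 100) (by norm_num) (by norm_num)
  obtain ⟨η2, ε2, A1, P2, hη2, hε2, hA1, hm⟩ := mol_exp (Mo.mol (by norm_num) hT)
  obtain ⟨K, hK, hM⟩ := hM
  obtain ⟨e, he, he', heK⟩ : ∃ e : ℝ, 0 < e ∧ e ≤ 1 / 40 ∧ e ≤ 1 / (4 * K) :=
    ⟨min (1 / 40) (1 / (4 * K)), by positivity, min_le_left _ _, min_le_right _ _⟩
  obtain ⟨d0, A2, hd0, hA2, hz⟩ := zeta_sums he he'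
  obtain ⟨d1, hd1, d1a, d1b, d1c, d1d⟩ :
      ∃ d1 : ℝ, 0 < d1 ∧ d1 ≤ 1 / 40 ∧ d1 ≤ d0 ∧ d1 ≤ ε1 ∧ d1 ≤ ε2 :=
    ⟨min (min (1 / 40) d0) (min ε1 ε2), by positivity, (min_le_left _ _).trans (min_le_left _ _),
      (min_le_left _ _).trans (min_le_right _ _), (min_le_right _ _).trans (min_le_left _ _),
      (min_le_right _ _).trans (min_le_right _ _)⟩
  obtain ⟨ε, hε, εa, εb, εc⟩ : ∃ ε : ℝ, 0 < ε ∧ ε ≤ te - 1 + th ∧ ε ≤ th * η1 ∧ ε ≤ th * η2 :=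
    ⟨min (te - 1 + th) (min (th * η1) (th * η2)), lt_min (by linarith) (by positivity),
      min_le_left _ _, (min_le_right _ _).trans (min_le_left _ _),
      (min_le_right _ _).trans (min_le_right _ _)⟩
  obtain ⟨η, c, C, X0, hη, hηε, hηc, hC1, hM⟩ := hM d1 hd1 d1a ε hε
  obtain ⟨A, hA, hAa, hAb⟩ : ∃ A : ℝ, 1 ≤ A ∧ A1 ≤ A ∧ A2 ≤ A :=
    ⟨max A1 A2, hA1.trans (le_max_left _ _), le_max_left _ _, le_max_right _ _⟩
  have hc : 0 < c := lt_of_lt_of_le (by positivity) hηc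
  have hc' : 0 < c / (2 * th) := by positivity
  have hec : 2 * (η * e) ≤ c / 2 := by
    have : η * e ≤ η * (1 / (4 * K)) := mul_le_mul_of_nonneg_left heK hη.le
    have e2 : η * (1 / (4 * K)) = η / K / 4 := by field_simp
    linarith
  obtain ⟨s1, hs1, hB⟩ := P3.caseB (CD := CD) (K := 18 * A ^ 2) hC1 hA hc'
  obtain ⟨K', hK', hCc⟩ := caseCG (K := 18 * A ^ 2) (η := η / th) hC1 hA hc' hL
    (lt_min hs0 hs1) hd1 (by positivity) hE
  have tP : Tendsto (fun X : ℝ => X ^ th) atTop atTop := tendsto_rpow_atTop h0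
  have hLt : 0 < 1 - L * th := by
    have := (lt_div_iff₀ h0).1 hL'
    linarith
  refine ⟨4 * (K' + 1), by positivity, ?_⟩
  filter_upwards [tP.eventually hB, tP.eventually hCc, tP.eventually_ge_atTop P1,
    tP.eventually_ge_atTop P2, eventually_ge_atTop X0, eventually_ge_atTop 1,
    (Real.tendsto_log_atTop.const_mul_atTop hLt).eventually_ge_atTop (Real.log 4)]
    with X hB hCc hP1 hP2 hX0 hX hlog
  have hXp : 0 < X := by linarith
  have hP : 1 ≤ X ^ th := Real.one_le_rpow hX h0.le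
  have hlP : 0 ≤ Real.log (X ^ th) := Real.log_nonneg hP
  obtain ⟨E, hEc, hM⟩ := hM X hX0
  obtain ⟨ι, _, χ, ρ, hF⟩ := exists_full (Q := (⌊X ^ th⌋₊).factorial)
    (fun ξ z => cd ξ ≤ X ^ th ∧ 1 - d1 ≤ z.re ∧ |z.im| ≤ X ^ η) (1 - d1) (X ^ η)
    fun ξ z h => h.2
  have hS := hF.sub
  have key : ∀ a b : ℝ, d1 ≤ a → ε ≤ th * b → ∀ j, cd (χ j) ≤ X ^ th ∧
      lam (X ^ th) (ρ j) ≤ a * Real.log (X ^ th) ∧ |(ρ j).im| ≤ (X ^ th) ^ b := by
    intro a b ha hb j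
    obtain ⟨u1, u2, u3⟩ := hF.1 j
    refine ⟨u1, mul_le_mul_of_nonneg_right (by linarith) hlP, u3.trans ?_⟩
    rw [← Real.rpow_mul hXp.le]
    exact Real.rpow_le_rpow_of_exponent_le hX (by linarith)
  have hm := hm _ hP2 _ ι χ ρ hS (key _ _ d1d εc)
  have hD := hD _ hP1 _ ι χ ρ hS (key _ _ d1c εb)
  obtain ⟨hz1, hz2⟩ := hz _ ι χ ρ hS fun j => by linarith [(hF.1 j).2.1]
  have hBig : Big χ ρ (fun i => lam (X ^ th) (ρ i)) (X ^ th) A :=
    ⟨hS.lam_nonneg hP, fun S h => (hm S h).1.trans hAa, fun S h h' => ((hm S h).2 h').trans hAa,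
      hz1.trans hAb⟩
  have hT1 : 1 ≤ X ^ η := Real.one_le_rpow hX hη.le
  have hcard : ((PP χ).card : ℝ) ≤ A * (X ^ η) ^ e :=
    (hz2 _ hT1 fun j => (hF.1 j).2.2).trans (by gcongr)
  have h3 := as5_third hX h0 hA hη.le he.le hec
    (Finset.sum_nonneg fun i _ => (yw_pos L (fun i => lam (X ^ th) (ρ i)) i).le)
    (P3.as5_sum hBig hL hcard)
  have main : ∀ m : ℕ, Even m → X ≤ m → (m : ℝ) ≤ 5 / 4 * X → m ∉ E →
      T2 C m χ ρ (yw L fun i => lam (X ^ th) (ρ i)) univ +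
        T1 C χ ρ (yw L fun i => lam (X ^ th) (ρ i)) univ +
          18 * A ^ 2 * (X ^ th) ^ (-(c / (2 * th))) < 1 → Gb m := by
    intro m m1 m2 m3 m4 m5
    by_contra hG
    have a1 := hM ι χ ρ hF m m1 m2 m3 m4 hG
    have a2 := as5_cmp (χ := χ) (ρ := ρ) (C := C) (u := 2 * X ^ (-c)) (by linarith) (by positivity) m
      (x := fun i => (X / 4) ^ ((ρ i).re - 1)) (y := yw L fun i => lam (X ^ th) (ρ i))
      (fun i => by positivity) fun i => as5_x hXp hlog (hS.re_lt_one i).le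
    linarith
  have hX1 : 1 ≤ X ^ te := Real.one_le_rpow hX (by nlinarith)
  have hX2 : 1 ≤ X ^ (te - 1 + th) := Real.one_le_rpow hX (by linarith)
  have hE1 : Good E (4 * (K' + 1) * X ^ te) (2 * (K' + 1) * X ^ (te - 1 + th)) :=
    hEc.mono subset_rfl (by positivity) (by positivity)
      ((Real.rpow_le_rpow_of_exponent_le hX (by linarith)).trans
        (le_mul_of_one_le_left (by positivity) (by linarith)))
      ((Real.rpow_le_rpow_of_exponent_le hX εa).trans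
        (le_mul_of_one_le_left (by positivity) (by linarith)))
  by_cases hex : ∃ i, lam (X ^ th) (ρ i) ≤ min s0 s1
  · obtain ⟨i, hi⟩ := hex
    obtain ⟨b1, b2, b3, b4⟩ := hD i (hi.trans (min_le_left _ _))
    refine ⟨E, hE1.mono subset_rfl (by positivity) (by positivity) le_rfl (by gcongr; norm_num),
      fun m m1 m2 m3 m4 => main m m1 m2 m3 m4 ?_⟩
    exact hB L hL _ ι χ ρ hS hBig i (hF.1 i).1 (hi.trans (min_le_right _ _)) b1 b2 b3 b4 m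
  · push Not at hex
    obtain ⟨E', c1, c2⟩ := hCc _ ι χ ρ (X ^ η)
      (by rw [← Real.rpow_mul hXp.le, mul_div_cancel₀ _ h0.ne']) hF hBig (fun i => (hex i).le)
      (5 / 4 * X) (by positivity)
    refine ⟨E ∪ E', ?_, fun m m1 m2 m3 m4 => ?_⟩
    · have u2 : X / X ^ th ≤ X ^ te := by
        rw [← Real.rpow_one X, ← Real.rpow_mul hXp.le, ← Real.rpow_sub hXp, Real.rpow_one]
        exact Real.rpow_le_rpow_of_exponent_le hX (by linarith)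
      have u3 : K' * (5 / 4 * X) / X ^ th = 5 / 4 * K' * (X / X ^ th) := by ring
      have u4 : 5 / 4 * K' * (X / X ^ th) ≤ 5 / 4 * K' * X ^ te := by gcongr
      have u5 : 0 ≤ K' * X ^ te := by positivity
      have u6 : K' ≤ K' * X ^ (te - 1 + th) := le_mul_of_one_le_right hK' hX2
      exact (hE1.union (c1.mono subset_rfl (by positivity) hK' (by linarith) (by linarith))
        (by positivity) (by positivity)).mono subset_rfl (by positivity) (by positivity) le_rfl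
          (le_of_eq (by ring))
    · rw [mem_union, not_or] at m4
      exact main m m1 m2 m3 m4.1 (c2 m (by exact_mod_cast hX.trans m2) m3 m4.2)

/-- The local statement with the exponent `7 / 12`. -/
theorem loc712 (hM : ∀ ϑ : ℝ, 0 < ϑ → ϑ < 5 / 12 → MAG ϑ) (δ : ℝ) (hδ : 0 < δ) :
    ∃ X0 : ℝ, ∀ X : ℝ, X0 ≤ X → ∃ E : Finset ℕ, Good E (X ^ (7 / 12 + δ)) (X ^ δ) ∧
      ∀ m : ℕ, Even m → X ≤ m → (m : ℝ) ≤ 5 / 4 * X → m ∉ E → Gb m := by
  obtain ⟨e, e0, e1, e2⟩ : ∃ e : ℝ, 0 < e ∧ e ≤ 1 / 10 ∧ 3 * e ≤ δ :=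
    ⟨min (1 / 10) (δ / 3), by positivity, min_le_left _ _, by linarith [min_le_right (1 / 10) (δ / 3)]⟩
  have b1 : 0 < 5 / 12 - e := by linarith
  obtain ⟨K, K0, h⟩ := as5_localG (L := 12 / 5) (te := 7 / 12 + 2 * e) b1 le_rfl
    ((lt_one_div (by norm_num) b1).2 (by linarith)) (by linarith) tb_third
    (dh (by norm_num) (by norm_num) tb_third zfs) (hM _ b1 (by linarith))
    (fin_of_cert3 (by norm_num) (by norm_num) cert4)
  refine eventually_atTop.1 ?_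
  filter_upwards [h, (tendsto_rpow_atTop e0).eventually_ge_atTop K, eventually_ge_atTop 1]
    with X h hK hX
  obtain ⟨E, h1, h2⟩ := h
  have hX0 : 0 < X := by linarith
  have key : ∀ a b : ℝ, e + a ≤ b → K * X ^ a ≤ X ^ b := fun a b hab =>
    (mul_le_mul_of_nonneg_right hK (by positivity)).trans (by
      rw [← Real.rpow_add hX0]
      exact Real.rpow_le_rpow_of_exponent_le hX hab)
  exact ⟨E, h1.mono subset_rfl (by positivity) (by positivity) (key _ _ (by linarith))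
    (key _ _ (by linarith)), h2⟩

/-- The count along a polynomial sequence, from the circle method. -/
theorem thin712 (hM : ∀ ϑ : ℝ, 0 < ϑ → ϑ < 5 / 12 → MAG ϑ) (Φ : Polynomial ℤ)
    (hΦ : 0 < Φ.leadingCoeff) {J : ℕ} (hJ : 1 ≤ J) (hJk : J ≤ Φ.natDegree) {ε : ℝ} (hε : 0 < ε) :
    ∃ C : ℝ, ∀ N : ℕ, 1 ≤ N →
      (Set.ncard {n : ℕ | 1 ≤ n ∧ n ≤ N ∧ ¬ ∃ m : ℕ, Gb m ∧ (m : ℤ) = 2 * Φ.eval (n : ℤ)} : ℝ) ≤
        C * (N : ℝ) ^ (1 - (J - 7 / 12 * Φ.natDegree) / 2 ^ (J - 1) + ε) :=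
  thin_end Gb (by norm_num) (loc712 hM) Φ hΦ hJ hJk hε

end Pool.Agent.Lib.MP_778b46_nt.Th
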