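import Pool.Agent.Lib.MP_778b46_nt.Th.DefsG
import Pool.Agent.Lib.MP_778b46_nt.MB.T5

/-! The circle method of `MB.T5` with an exceptional set of large energy. -/

set_option autoImplicit false

noncomputable section

namespace Pool.Agent.Lib.MP_778b46_nt.Th

open Complex Finset MeasureTheory
open scoped Real ComplexConjugate
open Pool.Agent.Lib.MP_03e5d0_nt (Sm ex ft bump)
open Pool.Agent.Lib.MP_778b46_nt.MA Pool.Agent.Lib.MP_778b46_nt.MB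

theorem minorG {ε : ℝ} (hε : 0 < ε) : ∃ C : ℝ, 0 ≤ C ∧ ∀ X P H U Y : ℝ, 64 ≤ X → 1 ≤ P → P ≤ H →
    P * H ≤ X → P ≤ X ^ (5 / 12 : ℝ) → X * Real.log X ^ 2 ≤ U → 0 < U → 0 < Y → ∀ S : Finset ℕ,
      (∀ m ∈ S, Y ≤ ‖(RR X m : ℂ) - R1 X P H m‖) →
        Good S (C * X ^ (3 + ε) / P / U ^ 2) (U / Y) := by
  obtain ⟨C, hC, h⟩ := minor_int hε
  refine ⟨C, hC, fun X P H U Y hX hP hPH hHX h5 hU hU0 hY S hS => ?_⟩
  have hX0 : 0 < X := by linarith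
  have c1 := VA.continuous_ee
  have c2 := a1S_cont X
  have c3 := a1K_cont X
  have c4 : Continuous (a1M X P H) := continuous_finsetSum _ fun ω _ => (c3 _).comp (by fun_prop)
  refine good_minor (u := fun x => 1 - a1M X P H x) (by fun_prop) c2
    (fun x => (a1M_cases hP hPH hHX x).1) hU0 hY ((mi_pars hX0).trans hU)
    (h X P H hX hP hPH hHX h5) fun m hm => (hS m hm).trans_eq ?_
  have e1 : R1 X P H m = ∫ x in (0 : ℝ)..1,
      (a1M X P H x : ℂ) * (a1S X x * a1S X x * VA.ee (-(m * x))) := by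
    simp only [a1M, Complex.ofReal_sum, sum_mul]
    rw [intervalIntegral.integral_finsetSum fun ω _ => Continuous.intervalIntegrable
      (by have := c3 (H / ω.1); fun_prop) _ _, VA.frs, sum_sigma, R1, mul_sum]
    refine sum_congr rfl fun q hq => ?_
    rw [mul_sum]
    have hq' : (1 : ℝ) ≤ q := by exact_mod_cast (mem_Icc.1 hq).1
    exact sum_congr rfl fun c _ => a1_arc (div_pos (by linarith) (by linarith))
      ((div_le_self (by linarith) hq').trans (by nlinarith)) q c m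
  rw [e1, a1_RR hX0, ← intervalIntegral.integral_sub
    (Continuous.intervalIntegrable (by fun_prop) _ _)
    (Continuous.intervalIntegrable (by fun_prop) _ _)]
  congr 1
  refine intervalIntegral.integral_congr fun x _ => ?_
  push_cast
  ring

theorem badG {ι : Type} (B : Finset ι) (r : ι → ι → ℕ) {M Z τ R : ℝ} (hM : 0 ≤ M) (hZ : 0 < Z)
    (hτ0 : 0 ≤ τ) (hR : (B.card : ℝ) ≤ R) (hr : ∀ i j, r i j ≠ 0)
    (hτ : ∀ i ∈ B, ∀ j ∈ B, ((r i j).divisors.card : ℝ) ≤ τ) {E : Finset ℕ}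
    (hE : ∀ m ∈ E, (m : ℝ) ≤ M ∧ ∃ i ∈ B, ∃ j ∈ B, Z < (Nat.gcd (r i j) m : ℝ)) :
    Good E (M / Z + 1) (R * (R * (τ * 2))) := by
  classical
  have R0 := (Nat.cast_nonneg _).trans hR
  refine (good_biUnion B (fun i => B.biUnion fun j =>
    ((r i j).divisors.filter fun d : ℕ => Z < d).biUnion fun d => E.filter fun m => d ∣ m)
    (by positivity) (by positivity) hR fun i hi =>
      good_biUnion _ _ (by positivity) (by positivity) hR fun j hj =>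
        good_biUnion _ _ (by positivity) (by positivity)
          ((Nat.cast_le.2 (card_filter_le _ _)).trans (hτ i hi j hj)) fun d hd =>
            good_prog hZ (mem_filter.1 hd).2.le hM fun m hm =>
              ⟨(mem_filter.1 hm).2, (hE m (mem_filter.1 hm).1).1⟩).mono (fun m hm => ?_)
    (by positivity) (by positivity) le_rfl le_rfl
  obtain ⟨-, i, hi, j, hj, h⟩ := hE m hm
  exact mem_biUnion.2 ⟨i, hi, mem_biUnion.2 ⟨j, hj, mem_biUnion.2 ⟨_, mem_filter.2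
    ⟨Nat.mem_divisors.2 ⟨Nat.gcd_dvd_left _ _, hr i j⟩, h⟩, mem_filter.2
      ⟨hm, Nat.gcd_dvd_right _ _⟩⟩⟩⟩

theorem main3G {ϑ : ℝ} (hϑ : 0 < ϑ) (hϑ' : ϑ < 5 / 12) : ∃ K : ℝ, 0 < K ∧
    ∀ δ ε : ℝ, 0 < δ → δ ≤ 1 / 40 → 0 < ε →
      ∃ η c C : ℝ, 0 < η ∧ η ≤ ε ∧ η / K ≤ c ∧ 1 ≤ C ∧ ∀ X : ℝ, C ≤ X → ∀ (N : ℕ) [NeZero N],
        N = ⌊X ^ ϑ⌋₊.factorial → ∃ E : Finset ℕ, Good E (X ^ (1 - ϑ + ε)) (X ^ ε) ∧
          ∀ m : ℕ, Even m → X ≤ m → (m : ℝ) ≤ 5 / 4 * X → m ∉ E → ∃ A : ℝ, X / 16 ≤ A ∧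
            A * (1 - Lo2 C X N (X ^ ϑ) δ (X ^ η) m - Lo1 C X N (X ^ ϑ) δ (X ^ η) -
              X ^ (-c) * (1 + Tot X N (X ^ ϑ) δ (X ^ η)) ^ 2) ≤ RR X m := by
  classical
  obtain ⟨θ, hθ0, hθ⟩ := exists_between hϑ'
  obtain ⟨K, hK, hs⟩ := lw_small2 hθ
  refine ⟨40 * K, by linarith, fun δ ε hδ hδ' hε => ?_⟩
  obtain ⟨k, hk, hkδ, hkε, hkθ⟩ : ∃ k : ℝ, 0 < k ∧ 100 * k ≤ δ ∧ 100 * k ≤ ε ∧ ϑ + 16 * k ≤ θ := by
    refine ⟨min (min (δ / 100) (ε / 100)) ((θ - ϑ) / 16),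
      lt_min (lt_min (by linarith) (by linarith)) (by linarith), ?_⟩
    have h1 := min_le_left (min (δ / 100) (ε / 100)) ((θ - ϑ) / 16)
    have h2 := min_le_right (min (δ / 100) (ε / 100)) ((θ - ϑ) / 16)
    exact ⟨by linarith [min_le_left (δ / 100) (ε / 100)],
      by linarith [min_le_right (δ / 100) (ε / 100)], by linarith⟩
  obtain ⟨r, hrk⟩ : ∃ r : ℝ, r = k / K := ⟨_, rfl⟩
  have hK0 : 0 < K := by linarith
  have hr0 : 0 < r := by rw [hrk]; positivity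
  have hr : 40 * r ≤ k := by
    rw [hrk, ← mul_div_assoc, div_le_iff₀ hK0, mul_comm k]
    exact mul_le_mul_of_nonneg_right hK hk.le
  have hηK : 16 * k / (40 * K) ≤ 2 * r / 5 := by
    rw [hrk]
    refine le_of_eq ?_
    field_simp
    ring
  obtain ⟨C₀, hC₀, hml⟩ := main_lower
  obtain ⟨X₀, hX₀, hsg⟩ := r1_gen2 hr0 hr (by linarith) hkθ (by linarith) lw_mass2 (by
    rw [hrk]
    exact hs k hk (by linarith))
  obtain ⟨Ce, hCe, hef⟩ := ef hδ hδ' hk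
  obtain ⟨Cd, hCd, hdv⟩ := MP_2a1a00_nt.card_divisors_le k hk
  have hg : 0 < 2 * r / 45 := by linarith
  obtain ⟨Cm, hCm, hmm⟩ := minorG hg
  obtain ⟨X₁, e1⟩ := s3_ev 2 0 hϑ
  obtain ⟨X₂, e2⟩ := s3_ev 64 0 hg
  obtain ⟨X₃, e3⟩ := s3_ev (2 * Cm) 0 hg
  obtain ⟨X₄, e4⟩ := s3_ev (4 * Cd) 0 hg
  obtain ⟨X₅, e5⟩ := s3_ev (8 * C₀ * Ce) 2 hg
  obtain ⟨X₆, e6⟩ := s3_ev (4 * C₀) 0 hg
  obtain ⟨X₇, e7⟩ := s3_ev 1 2 hg
  obtain ⟨C, c0, c1, c2, c3, c4, c5, c6, c7, c8⟩ : ∃ C : ℝ, C₀ ≤ C ∧ X₀ ≤ C ∧ X₁ ≤ C ∧ X₂ ≤ C ∧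
      X₃ ≤ C ∧ X₄ ≤ C ∧ X₅ ≤ C ∧ X₆ ≤ C ∧ X₇ ≤ C := by
    refine ⟨|C₀| + |X₀| + |X₁| + |X₂| + |X₃| + |X₄| + |X₅| + |X₆| + |X₇|, ?_⟩
    have := abs_nonneg X₇
    have := abs_nonneg C₀
    have := abs_nonneg X₀
    have := abs_nonneg X₁
    have := abs_nonneg X₂
    have := abs_nonneg X₃
    have := abs_nonneg X₄
    have := abs_nonneg X₅
    have := abs_nonneg X₆
    refine ⟨?_, ?_, ?_, ?_, ?_, ?_, ?_, ?_, ?_⟩ <;> refine (le_abs_self _).trans ?_ <;> linarith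
  refine ⟨16 * k, 2 * r / 5, C, by linarith, by linarith, hηK, hC₀.trans c0,
    fun X hX N _ hN => ?_⟩
  have hX2 : 2 ≤ X := hX₀.trans (c1.trans hX)
  have hX1 : 1 ≤ X := by linarith
  have hX0 : 0 < X := by linarith
  replace e1 := e1 X (c2.trans hX)
  replace e2 := e2 X (c3.trans hX)
  replace e3 := e3 X (c4.trans hX)
  replace e4 := e4 X (c5.trans hX)
  replace e5 := e5 X (c6.trans hX)
  replace e6 := e6 X (c7.trans hX)
  replace e7 := e7 X (c8.trans hX)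
  rw [pow_zero, mul_one] at e1 e2 e3 e4 e6
  have mono : ∀ {a b : ℝ}, a ≤ b → X ^ a ≤ X ^ b := fun h =>
    Real.rpow_le_rpow_of_exponent_le hX1 h
  have add : ∀ a b : ℝ, X ^ a * X ^ b = X ^ (a + b) := fun a b => (Real.rpow_add hX0 a b).symm
  have one : ∀ {a : ℝ}, 0 ≤ a → 1 ≤ X ^ a := fun h => Real.one_le_rpow hX1 h
  have top : ∀ {a : ℝ}, a ≤ 1 → X ^ a ≤ X := fun h => (mono h).trans (Real.rpow_one X).le
  have pos : ∀ a : ℝ, 0 < X ^ a := fun a => Real.rpow_pos_of_pos hX0 a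
  have two : X ^ 2 = X ^ (2 : ℝ) := (Real.rpow_two X).symm
  have hlog : 0 ≤ Real.log X ^ 2 := sq_nonneg _
  obtain ⟨B, hB1, hB2, hB3, hB⟩ := hsg X (X ^ ϑ) N (c1.trans hX) e1 le_rfl hN
  have hT₁ : 1 ≤ X ^ (15 * k) := one (by linarith)
  have h4P : 4 * X ^ ϑ ≤ X := by
    refine (s3_key hX1 (le_trans (by norm_num) e2) (b := 1) (by linarith)).trans
      (Real.rpow_one X).le
  set E₁ : Finset ℕ := (Icc 1 ⌊2 * X⌋₊).filter fun m : ℕ =>
    X ^ (1 - 4 * r / 9) < ‖(RR X m : ℂ) - R1 X (X ^ ϑ) (X ^ ϑ * X ^ (15 * k)) m‖ with hE₁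
  set E₂ : Finset ℕ := (Icc 1 ⌊2 * X⌋₊).filter fun m : ℕ => ∃ χ ∈ B, ∃ χ' ∈ B,
    X ^ (-(44 * k)) * X ^ ϑ < (Nat.gcd (Nat.lcm χ.conductor χ'.conductor) m : ℝ) with hE₂
  have b1 : Good E₁ (X ^ (1 - ϑ + ε)) (X ^ (ε - 2 * r / 45)) := by
    have a1 := hmm X (X ^ ϑ) (X ^ ϑ * X ^ (15 * k)) (X ^ (1 + 2 * r / 45)) _
      (e2.trans (top (by linarith))) (one hϑ.le)
      (le_mul_of_one_le_right (pos _).le hT₁) (by rw [add, add]; exact top (by linarith))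
      (mono (by linarith)) (by
        rw [← add, Real.rpow_one]
        exact mul_le_mul_of_nonneg_left (by linarith only [e7]) hX0.le) (pos _) (pos _) E₁
      fun m hm => (mem_filter.1 hm).2.le
    refine a1.mono subset_rfl (by positivity) (by positivity) ?_ ?_
    · rw [sq, add, div_div, add, mul_div_assoc, ← Real.rpow_sub hX0]
      exact s3_key hX1 (le_trans (by linarith only [hCm]) e3) (by linarith)
    · rw [← Real.rpow_sub hX0]
      exact mono (by linarith)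
  have b2 : Good E₂ (X ^ (1 - ϑ + ε)) (X ^ (ε - 2 * r / 45)) := by
    have a0 : X ^ ϑ * X ^ ϑ ≤ X := by
      rw [add]
      exact top (by linarith)
    have a1 := badG B (fun χ χ' => Nat.lcm χ.conductor χ'.conductor) (M := 2 * X)
      (Z := X ^ (-(44 * k)) * X ^ ϑ) (τ := Cd * X ^ k) (E := E₂) (by positivity) (by positivity)
      (by positivity) hB3
      (fun χ χ' => Nat.lcm_ne_zero χ.conductor_ne_zero χ'.conductor_ne_zero)
      (fun χ h χ' h' => s3_tu hCd hk hdv a0 (hB2 h) (hB2 h')) fun m hm =>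
        ⟨(Nat.cast_le.2 (mem_Icc.1 (mem_filter.1 hm).1).2).trans (Nat.floor_le (by linarith)),
          (mem_filter.1 hm).2⟩
    refine a1.mono subset_rfl (by positivity) (by positivity) ?_ ?_
    · have a2 : X / (X ^ (-(44 * k)) * X ^ ϑ) = X ^ (1 - (-(44 * k) + ϑ)) := by
        rw [add, Real.rpow_sub hX0, Real.rpow_one]
      have a3 := one (a := 1 - (-(44 * k) + ϑ)) (by linarith)
      have a4 := s3_key hX1 e2 (a := 1 - (-(44 * k) + ϑ)) (b := 1 - ϑ + ε) (by linarith)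
      rw [mul_div_assoc, a2]
      linarith only [a3, a4]
    · have a2 : X ^ (3 * k) * (X ^ (3 * k) * (Cd * X ^ k * 2)) =
          2 * Cd * X ^ (3 * k + 3 * k + k) := by
        rw [← add, ← add]
        ring
      rw [a2]
      exact s3_key hX1 (le_trans (by linarith only [hCd]) e4) (by linarith)
  refine ⟨E₁ ∪ E₂, (b1.union b2 (pos _).le (pos _).le).mono subset_rfl (pos _).le (by positivity)
    le_rfl (s3_key hX1 (le_trans (by norm_num) e2) (by linarith)), fun m hm h1 h2 hE => ?_⟩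
  have hm1 : 1 ≤ m := by exact_mod_cast hX1.trans h1
  have hm2 : (m : ℝ) ≤ 2 * X := by linarith
  have hmem : m ∈ Icc 1 ⌊2 * X⌋₊ := mem_Icc.2 ⟨hm1, Nat.le_floor hm2⟩
  rw [mem_union, not_or] at hE
  have g1 : ‖(RR X m : ℂ) - R1 X (X ^ ϑ) (X ^ ϑ * X ^ (15 * k)) m‖ ≤ X ^ (1 - 4 * r / 9) :=
    not_lt.1 fun h => hE.1 (mem_filter.2 ⟨hmem, h⟩)
  have g2 := hB m hm1 hm2 fun χ h χ' h' =>
    not_lt.1 fun h'' => hE.2 (mem_filter.2 ⟨hmem, χ, h, χ', h', h''⟩)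
  have g3 := s3_re (D := X ^ (2 - 4 * r / 9)) hX0 (by
    refine (mul_le_mul_of_nonneg_left g1 hX0.le).trans (le_of_eq ?_)
    rw [show 2 - 4 * r / 9 = 1 + (1 - 4 * r / 9) by ring, ← add, Real.rpow_one]) g2
  set F : ℝ := Ce * X ^ (1 - δ) * (X ^ (16 * k)) ^ 2 * Real.log X ^ 2 with hF
  have hF0 : 0 ≤ F := by
    have := pos (1 - δ)
    positivity
  have hF1 : F = Ce * Real.log X ^ 2 * X ^ (1 - δ + 32 * k) := by
    rw [hF, show 1 - δ + 32 * k = 1 - δ + (16 * k + 16 * k) by ring, ← add, ← add]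
    ring
  have hF2 : F ≤ X := by
    have a1 : Ce * Real.log X ^ 2 ≤ X ^ (2 * r / 45) := by
      refine le_trans ?_ e5
      refine mul_le_mul_of_nonneg_right (le_mul_of_one_le_left hCe ?_) hlog
      linarith only [hC₀]
    rw [hF1]
    exact (s3_key hX1 a1 (b := 1) (by linarith)).trans (Real.rpow_one X).le
  have g4 := hml C X (X ^ ϑ) δ (X ^ (15 * k)) (X ^ (16 * k)) F m N B c0 hX1 hδ (by linarith) hT₁
    hF0 hm h1 h2 hB1 hB2 fun χ hχ y hy => hef X (X ^ (15 * k)) (X ^ (16 * k)) y N χ hX2 hT₁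
      (by rw [add]; exact mono (by linarith)) (top (by linarith))
      (le_trans (mem_filter.1 (hB2 hχ)).2 (top (by linarith))) hy
      fun n hn hn' => hN ▸ coprime_fact (pos _).le h4P hn hn'
  have hS := S0_ge (N := N) (NeZero.pos N) hm
  have hI : 1 / 8 ≤ I0 w1 (m / X) :=
    I0_ge (by rwa [le_div_iff₀ hX0, one_mul]) (by rwa [div_le_iff₀ hX0])
  have hT := s3_tot hX0.le N (X ^ ϑ) δ (X ^ (16 * k))
  have hY : X ^ 2 * X ^ (-(2 * r / 5)) = X ^ (2 - 2 * r / 5) := by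
    rw [two, add, sub_eq_add_neg]
  refine ⟨X * S0 N m * I0 w1 (m / X), ?_,
    s3_fin hX0 (pos _).le hS hI (one_le_pow₀ (by linarith)) g4 g3 ?_ ?_ ?_⟩
  · have : 1 / 2 * (1 / 8) ≤ S0 N m * I0 w1 (m / X) :=
      mul_le_mul hS hI (by norm_num) (by linarith only [hS])
    have := mul_le_mul_of_nonneg_left this hX0.le
    linarith only [this]
  · have a1 : (B.card : ℝ) ^ 2 * (X ^ (15 * k) * F * (X + F)) ≤
        (X ^ (3 * k)) ^ 2 * (X ^ (15 * k) * F * (X + X)) := by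
      gcongr
    have a2 : X ^ (2 - δ + 53 * k) =
        X ^ (3 * k) * X ^ (3 * k) * X ^ (15 * k) * X ^ (1 - δ + 32 * k) * X ^ (1 : ℝ) := by
      simp only [add]
      congr 1
      ring
    have a3 := s3_key hX1 e5 (a := 2 - δ + 53 * k) (b := 2 - 2 * r / 5) (by linarith)
    rw [hY]
    refine le_trans ?_ a3
    rw [a2, Real.rpow_one]
    refine (mul_le_mul_of_nonneg_left (mul_le_mul_of_nonneg_left a1 (by linarith))
      (by norm_num)).trans (le_of_eq ?_)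
    rw [hF1]
    ring
  · rw [← Real.rpow_mul hX0.le, ← mul_assoc]
    exact s3_key hX1 e6 (by linarith)
  · rw [hY]
    exact s3_key hX1 e2 (by linarith)

open GX in
theorem mag_of_sets {K ϑ : ℝ} (hK : 0 < K)
    (h : ∀ δ ε : ℝ, 0 < δ → δ ≤ 1 / 40 → 0 < ε →
      ∃ η c C : ℝ, 0 < η ∧ η ≤ ε ∧ η / K ≤ c ∧ 1 ≤ C ∧ ∀ X : ℝ, C ≤ X → ∀ (N : ℕ) [NeZero N],
        N = ⌊X ^ ϑ⌋₊.factorial → ∃ E : Finset ℕ, Good E (X ^ (1 - ϑ + ε)) (X ^ ε) ∧
          ∀ m : ℕ, Even m → X ≤ m → (m : ℝ) ≤ 5 / 4 * X → m ∉ E → ∃ A : ℝ, X / 16 ≤ A ∧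
            A * (1 - MA.Lo2 C X N (X ^ ϑ) δ (X ^ η) m - MA.Lo1 C X N (X ^ ϑ) δ (X ^ η) -
              X ^ (-c) * (1 + MA.Tot X N (X ^ ϑ) δ (X ^ η)) ^ 2) ≤ MA.RR X m) : MAG ϑ := by
  refine ⟨max K 2, lt_max_of_lt_left hK, fun δ h0 h1 ε hε => ?_⟩
  obtain ⟨η, c, C, a1, a2, a3, a4, a5⟩ := h δ (min ε 1) h0 h1 (lt_min hε one_pos)
  refine ⟨η, min c (1 / 2), C, max C (2 ^ 40), a1, a2.trans (min_le_left _ _), le_min
    ((div_le_div_of_nonneg_left a1.le hK (le_max_left _ _)).trans a3)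
    (div_le_div₀ zero_le_one (a2.trans (min_le_right _ _)) two_pos (le_max_right _ _)), a4,
    fun X hX => ?_⟩
  have b1 : (2 : ℝ) ^ 40 ≤ X := (le_max_right _ _).trans hX
  have b2 : 1 ≤ X := le_trans (by norm_num) b1
  obtain ⟨E, e1, e2⟩ := a5 X ((le_max_left _ _).trans hX) _ rfl
  refine ⟨E, e1.mono subset_rfl (by positivity) (by positivity)
    (Real.rpow_le_rpow_of_exponent_le b2 (by linarith [min_le_left ε 1]))
    (Real.rpow_le_rpow_of_exponent_le b2 (min_le_left ε 1)),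
    fun ι _ χ ρ hF m m1 m2 m3 m4 m5 => ?_⟩
  obtain ⟨A, c1, c2⟩ := e2 m m1 m2 m3 m4
  rw [as6_lo2 hF, as6_lo1 hF, as6_tot hF] at c2
  have c3 := c2.trans (as6_RR b2 m5)
  have c4 := as6_log b1
  have c5 : X ^ (-c) ≤ X ^ (-min c (1 / 2)) :=
    Real.rpow_le_rpow_of_exponent_le b2 (neg_le_neg (min_le_left _ _))
  have c6 : X ^ (-(1 / 2) : ℝ) ≤ X ^ (-min c (1 / 2)) :=
    Real.rpow_le_rpow_of_exponent_le b2 (neg_le_neg (min_le_right _ _))
  have c7 : 0 ≤ ∑ i, (X / 4) ^ ((ρ i).re - 1) :=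
    sum_nonneg fun i _ => Real.rpow_nonneg (by linarith) _
  have c8 : 1 ≤ (1 + ∑ i, (X / 4) ^ ((ρ i).re - 1)) ^ 2 := one_le_pow₀ (by linarith)
  have c9 : 0 < X ^ (-(1 / 2) : ℝ) := Real.rpow_pos_of_pos (by linarith) _
  set s := (1 + ∑ i, (X / 4) ^ ((ρ i).re - 1)) ^ 2
  set u := X ^ (-min c (1 / 2))
  set v := X ^ (-(1 / 2) : ℝ)
  set w := X ^ (-c)
  have d1 : w * s ≤ u * s := mul_le_mul_of_nonneg_right c5 (by linarith)
  have d2 : v ≤ u * s := c6.trans (le_mul_of_one_le_right (by linarith) c8)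
  have d3 : Real.log X ^ 2 ≤ A * v := by nlinarith
  have d4 := le_of_mul_le_mul_left (c3.trans d3) (by linarith : 0 < A)
  linarith

theorem mag_all {ϑ : ℝ} (h0 : 0 < ϑ) (h1 : ϑ < 5 / 12) : MAG ϑ := by
  obtain ⟨K, hK, h⟩ := main3G h0 h1
  exact mag_of_sets hK h

end Pool.Agent.Lib.MP_778b46_nt.Th
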